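import Mathlib

/-!
# Triangular averages of two commuting contractions
-/

set_option autoImplicit false

namespace Q164.W2

open Filter Topology

section
variable {B : Type*} [NormedRing B] [NormedAlgebra ℂ B] [NormOneClass B]

/-- `S n = ∑_{i + j = n - 1} L^i R^j` -/
def S (L R : B) : ℕ → B
  | 0 => 0
  | n + 1 => L * S L R n + R ^ n

/-- `Tri n = ∑_{i + j < n} L^i R^j` -/
def Tri (L R : B) : ℕ → B
  | 0 => 0
  | n + 1 => Tri L R n + S L R (n + 1)

/-- the number of terms of `Tri (n + 1)` -/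
noncomputable def tau (n : ℕ) : ℝ := (n + 1) * (n + 2) / 2

/-- the triangular average -/
noncomputable def W (L R : B) (n : ℕ) : B := ((1 / tau n : ℝ) : ℂ) • Tri L R (n + 1)

theorem tau_pos (n : ℕ) : 0 < tau n := by unfold tau; positivity

omit [NormedAlgebra ℂ B] [NormOneClass B] in
theorem S_succ (L R : B) (n : ℕ) : S L R (n + 1) = L * S L R n + R ^ n := rfl

omit [NormedAlgebra ℂ B] [NormOneClass B] in
theorem Tri_succ (L R : B) (n : ℕ) : Tri L R (n + 1) = Tri L R n + S L R (n + 1) := rfl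

omit [NormedAlgebra ℂ B] [NormOneClass B] in
theorem S_succ' {L R : B} (n : ℕ) : S L R (n + 1) = S L R n * R + L ^ n := by
  induction n with
  | zero => simp [S]
  | succ n ih =>
    rw [S_succ, ih, mul_add, ← mul_assoc, pow_succ R n, pow_succ' L n]
    conv_rhs => rw [← ih, S_succ, add_mul]
    abel

omit [NormedAlgebra ℂ B] [NormOneClass B] in
theorem S_comm_L {L R : B} (h : Commute L R) (n : ℕ) : S L R n * L = L * S L R n := by
  induction n with
  | zero => simp [S]
  | succ n ih =>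
    rw [S_succ, add_mul, mul_add, mul_assoc, ih, ← (h.pow_right n).eq]

omit [NormedAlgebra ℂ B] [NormOneClass B] in
theorem S_comm_R {L R : B} (h : Commute L R) (n : ℕ) : S L R n * R = R * S L R n := by
  induction n with
  | zero => simp [S]
  | succ n ih =>
    rw [S_succ, add_mul, mul_add, mul_assoc, ih, ← mul_assoc, h.eq, mul_assoc,
      ← pow_succ, pow_succ']

omit [NormedAlgebra ℂ B] [NormOneClass B] in
theorem S_succ'' {L R : B} (h : Commute L R) (n : ℕ) :
    S L R (n + 1) = R * S L R n + L ^ n := by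
  rw [S_succ', S_comm_R h]

omit [NormedAlgebra ℂ B] in
theorem norm_pow_le_one {L : B} (hL : ‖L‖ ≤ 1) (n : ℕ) : ‖L ^ n‖ ≤ 1 :=
  (norm_pow_le L n).trans (pow_le_one₀ (norm_nonneg _) hL)

omit [NormedAlgebra ℂ B] in
theorem norm_S_le {L R : B} (hL : ‖L‖ ≤ 1) (hR : ‖R‖ ≤ 1) (n : ℕ) : ‖S L R n‖ ≤ n := by
  induction n with
  | zero => simp [S]
  | succ n ih =>
    rw [S_succ]
    refine (norm_add_le _ _).trans ?_
    have h1 : ‖L * S L R n‖ ≤ n := by
      refine (norm_mul_le _ _).trans ?_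
      calc ‖L‖ * ‖S L R n‖ ≤ 1 * ‖S L R n‖ := mul_le_mul_of_nonneg_right hL (norm_nonneg _)
        _ ≤ n := by rw [one_mul]; exact ih
    have h2 := norm_pow_le_one hR n
    push_cast
    linarith

omit [NormedAlgebra ℂ B] in
theorem norm_Tri_le {L R : B} (hL : ‖L‖ ≤ 1) (hR : ‖R‖ ≤ 1) (n : ℕ) :
    ‖Tri L R n‖ ≤ n * (n + 1) / 2 := by
  induction n with
  | zero => simp [Tri]
  | succ n ih =>
    rw [Tri_succ]
    refine (norm_add_le _ _).trans ?_
    have h2 := norm_S_le hL hR (n + 1)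
    push_cast at h2 ⊢
    linarith

theorem norm_W_le {L R : B} (hL : ‖L‖ ≤ 1) (hR : ‖R‖ ≤ 1) (n : ℕ) : ‖W L R n‖ ≤ 1 := by
  unfold W
  rw [norm_smul, Complex.norm_real, Real.norm_of_nonneg (by have := tau_pos n; positivity)]
  have h := norm_Tri_le hL hR (n + 1)
  have h2 : ‖Tri L R (n + 1)‖ ≤ tau n := by
    refine h.trans (le_of_eq ?_)
    unfold tau; push_cast; ring
  calc 1 / tau n * ‖Tri L R (n + 1)‖ ≤ 1 / tau n * tau n :=
        mul_le_mul_of_nonneg_left h2 (by have := tau_pos n; positivity)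
    _ = 1 := by rw [one_div, inv_mul_cancel₀ (tau_pos n).ne']

omit [NormedAlgebra ℂ B] [NormOneClass B] in
theorem Tri_mul_L {L R : B} (h : Commute L R) (n : ℕ) :
    Tri L R n * (1 - L) = (∑ m ∈ Finset.range (n + 1), R ^ m) - S L R (n + 1) := by
  induction n with
  | zero => simp [Tri, S]
  | succ n ih =>
    rw [Tri_succ, add_mul, ih, Finset.sum_range_succ _ (n + 1), mul_sub, mul_one, S_comm_L h,
      S_succ L R (n + 1)]
    abel

omit [NormedAlgebra ℂ B] [NormOneClass B] in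
theorem Tri_mul_R {L R : B} (n : ℕ) :
    Tri L R n * (1 - R) = (∑ m ∈ Finset.range (n + 1), L ^ m) - S L R (n + 1) := by
  induction n with
  | zero => simp [Tri, S]
  | succ n ih =>
    rw [Tri_succ, add_mul, ih, Finset.sum_range_succ _ (n + 1), mul_sub, mul_one,
      S_succ' (L := L) (R := R) (n + 1)]
    abel

omit [NormedAlgebra ℂ B] in
theorem norm_sum_pow_le {L : B} (hL : ‖L‖ ≤ 1) (n : ℕ) :
    ‖∑ m ∈ Finset.range n, L ^ m‖ ≤ n := by
  refine (norm_sum_le _ _).trans ?_
  refine (Finset.sum_le_sum fun m _ => norm_pow_le_one hL m).trans ?_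
  simp

omit [NormOneClass B] in
theorem tendsto_aux {Z : ℕ → B} (hZ : ∀ n, ‖Z n‖ ≤ 2 * (n + 2)) :
    Tendsto (fun n => ((1 / tau n : ℝ) : ℂ) • Z n) atTop (𝓝 0) := by
  have h1 : Tendsto (fun n : ℕ => 4 * (1 / ((n : ℝ) + 1))) atTop (𝓝 (4 * 0)) :=
    tendsto_one_div_add_atTop_nhds_zero_nat.const_mul 4
  rw [mul_zero] at h1
  refine squeeze_zero_norm (fun n => ?_) h1
  rw [norm_smul, Complex.norm_real, Real.norm_of_nonneg (by have := tau_pos n; positivity)]
  calc 1 / tau n * ‖Z n‖ ≤ 1 / tau n * (2 * (n + 2)) :=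
        mul_le_mul_of_nonneg_left (hZ n) (by have := tau_pos n; positivity)
    _ = 4 * (1 / ((n : ℝ) + 1)) := by
        unfold tau
        have h2 : (n : ℝ) + 1 ≠ 0 := by positivity
        have h3 : (n : ℝ) + 2 ≠ 0 := by positivity
        field_simp
        ring

theorem W_mul_L {L R : B} (h : Commute L R) (hL : ‖L‖ ≤ 1) (hR : ‖R‖ ≤ 1) :
    Tendsto (fun n => W L R n * (1 - L)) atTop (𝓝 0) := by
  have := tendsto_aux (Z := fun n => Tri L R (n + 1) * (1 - L)) (fun n => by
    rw [Tri_mul_L h]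
    refine (norm_sub_le _ _).trans ?_
    have h1 := norm_sum_pow_le hR (n + 1 + 1)
    have h2 := norm_S_le hL hR (n + 1 + 1)
    push_cast at h1 h2
    linarith)
  refine this.congr fun n => ?_
  unfold W
  rw [smul_mul_assoc]

theorem W_mul_R {L R : B} (hL : ‖L‖ ≤ 1) (hR : ‖R‖ ≤ 1) :
    Tendsto (fun n => W L R n * (1 - R)) atTop (𝓝 0) := by
  have := tendsto_aux (Z := fun n => Tri L R (n + 1) * (1 - R)) (fun n => by
    rw [Tri_mul_R]
    refine (norm_sub_le _ _).trans ?_
    have h1 := norm_sum_pow_le hL (n + 1 + 1)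
    have h2 := norm_S_le hL hR (n + 1 + 1)
    push_cast at h1 h2
    linarith)
  refine this.congr fun n => ?_
  unfold W
  rw [smul_mul_assoc]

/-- the operators killed in the limit -/
def Nul (V : ℕ → B) (Z : B) : Prop := Tendsto (fun n => V n * Z) atTop (𝓝 0)

omit [NormedAlgebra ℂ B] [NormOneClass B] in
theorem Nul.add {V : ℕ → B} {Z Z' : B} (h : Nul V Z) (h' : Nul V Z') : Nul V (Z + Z') := by
  have := Tendsto.add h h'
  rw [add_zero] at this
  exact this.congr fun n => (mul_add _ _ _).symm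

omit [NormedAlgebra ℂ B] [NormOneClass B] in
theorem Nul.neg {V : ℕ → B} {Z : B} (h : Nul V Z) : Nul V (-Z) := by
  have := Tendsto.neg h
  rw [neg_zero] at this
  exact this.congr fun n => (mul_neg _ _).symm

omit [NormedAlgebra ℂ B] [NormOneClass B] in
theorem Nul.sub {V : ℕ → B} {Z Z' : B} (h : Nul V Z) (h' : Nul V Z') : Nul V (Z - Z') := by
  rw [sub_eq_add_neg]; exact h.add h'.neg

omit [NormedAlgebra ℂ B] [NormOneClass B] in
theorem Nul.mul_right {V : ℕ → B} {Z : B} (h : Nul V Z) (Z' : B) : Nul V (Z * Z') := by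
  have := Tendsto.mul_const Z' h
  rw [zero_mul] at this
  exact this.congr fun n => mul_assoc _ _ _

omit [NormOneClass B] in
theorem Nul.smul {V : ℕ → B} {Z : B} (h : Nul V Z) (c : ℂ) : Nul V (c • Z) := by
  have := Tendsto.const_smul h c
  rw [smul_zero] at this
  exact this.congr fun n => (mul_smul_comm _ _ _).symm

omit [NormedAlgebra ℂ B] [NormOneClass B] in
theorem Nul.zero {V : ℕ → B} : Nul V 0 := by
  unfold Nul
  simp

theorem Nul_W {L R : B} (h : Commute L R) (hL : ‖L‖ ≤ 1) (hR : ‖R‖ ≤ 1) (m : ℕ) :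
    Nul (W L R) (1 - W L R m) := by
  have h1 : Nul (W L R) (1 - L) := W_mul_L h hL hR
  have h2 : Nul (W L R) (1 - R) := W_mul_R hL hR
  have h3 : ∀ n : ℕ, Nul (W L R) (1 - R ^ n) := by
    intro n
    induction n with
    | zero => simpa using Nul.zero
    | succ n ih =>
      have e : 1 - R ^ (n + 1) = (1 - R) * R ^ n + (1 - R ^ n) := by
        rw [sub_mul, one_mul, pow_succ']; abel
      rw [e]
      exact (h2.mul_right _).add ih
  have h4 : ∀ n : ℕ, Nul (W L R) ((n : B) - S L R n) := by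
    intro n
    induction n with
    | zero => simpa [S] using Nul.zero
    | succ n ih =>
      have e : (((n + 1 : ℕ) : B)) - S L R (n + 1)
          = ((n : B) - S L R n) + (1 - L) * S L R n + (1 - R ^ n) := by
        rw [S_succ, sub_mul, one_mul]; push_cast; abel
      rw [e]
      exact (ih.add (h1.mul_right _)).add (h3 n)
  have h5 : ∀ n : ℕ, Nul (W L R) ((((n * (n + 1) / 2 : ℝ)) : ℂ) • (1 : B) - Tri L R n) := by
    intro n
    induction n with
    | zero => simpa [Tri] using Nul.zero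
    | succ n ih =>
      have e : (((((n + 1 : ℕ) : ℝ) * (((n + 1 : ℕ) : ℝ) + 1) / 2 : ℝ)) : ℂ) • (1 : B)
          - Tri L R (n + 1)
          = ((((n * (n + 1) / 2 : ℝ)) : ℂ) • (1 : B) - Tri L R n)
            + ((((n + 1 : ℕ) : B)) - S L R (n + 1)) := by
        rw [Tri_succ]
        have e2 : (((n + 1 : ℕ) : B)) = (((n + 1 : ℕ) : ℂ)) • (1 : B) := by
          rw [← Algebra.algebraMap_eq_smul_one, map_natCast]
        rw [e2, sub_add_sub_comm, ← add_smul]
        congr 2
        push_cast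
        ring
      rw [e]
      exact ih.add (h4 (n + 1))
  have h6 := (h5 (m + 1)).smul ((1 / tau m : ℝ) : ℂ)
  have e : ((1 / tau m : ℝ) : ℂ) •
      ((((((m + 1 : ℕ) : ℝ) * (((m + 1 : ℕ) : ℝ) + 1) / 2 : ℝ)) : ℂ) • (1 : B) - Tri L R (m + 1))
      = 1 - W L R m := by
    unfold W
    rw [smul_sub, smul_smul, ← Complex.ofReal_mul]
    have e3 : (1 / tau m) * (((m + 1 : ℕ) : ℝ) * (((m + 1 : ℕ) : ℝ) + 1) / 2) = 1 := by
      unfold tau
      push_cast
      field_simp
      ring
    rw [e3, Complex.ofReal_one, one_smul]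
  rw [e] at h6
  exact h6

/-- The hypotheses of Cohen's theorem for `T n = 1 - W n`. -/
theorem T_mul_T {L R : B} (h : Commute L R) (hL : ‖L‖ ≤ 1) (hR : ‖R‖ ≤ 1) (m : ℕ) :
    Tendsto (fun n => (1 - W L R n) * (1 - W L R m)) atTop (𝓝 (1 - W L R m)) := by
  have h1 := Nul_W h hL hR m
  have h2 : Tendsto (fun n => (1 - W L R m) - W L R n * (1 - W L R m)) atTop
      (𝓝 ((1 - W L R m) - 0)) := tendsto_const_nhds.sub h1
  rw [sub_zero] at h2
  refine h2.congr fun n => ?_
  rw [sub_mul, one_mul]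

end

end Q164.W2
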