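import Mathlib

/-!
# A Cohen factorisation theorem for operators
-/

set_option autoImplicit false

namespace Q164.W2

open Filter Topology

section
variable {X : Type*} [NormedAddCommGroup X] [NormedSpace ℂ X] [CompleteSpace X]

/-- `E = 1 - c (1 - T)` is invertible with inverse of norm at most `2`, if `‖c (1 - T)‖ ≤ 1/2` -/
theorem exists_inv {R : Type*} [NormedRing R] [NormedAlgebra ℂ R] [CompleteSpace R] [NormOneClass R]
    (V : R) (hV : ‖V‖ ≤ 1 / 2) :
    ∃ W : R, W * (1 - V) = 1 ∧ (1 - V) * W = 1 ∧ ‖W‖ ≤ 2 := by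
  have h1 : ‖V‖ < 1 := lt_of_le_of_lt hV (by norm_num)
  refine ⟨∑' n : ℕ, V ^ n, ?_, ?_, ?_⟩
  · exact geom_series_mul_neg V h1
  · exact mul_neg_geom_series V h1
  · refine (tsum_geometric_le_of_norm_lt_one V h1).trans ?_
    rw [norm_one]
    have : (1 - ‖V‖)⁻¹ ≤ 2 := by
      rw [inv_le_comm₀ (by linarith) (by norm_num)]
      linarith
    linarith

end

section
variable {X : Type*} [NormedAddCommGroup X] [NormedSpace ℂ X] [CompleteSpace X]

/-- Cohen's factorisation theorem, for a bounded sequence of operators. -/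
theorem cohen (T : ℕ → X →L[ℂ] X) (K : ℝ) (hK : ∀ n, ‖1 - T n‖ ≤ K)
    (hT : ∀ m, Tendsto (fun n => T n * T m) atTop (𝓝 (T m)))
    (x : X) (hx : Tendsto (fun n => T n x) atTop (𝓝 x)) :
    ∃ (y : X) (c : ℕ → ℝ) (n : ℕ → ℕ), (∀ k, 0 ≤ c k) ∧ Summable c ∧
      HasSum (fun k => (c k : ℂ) • T (n k) y) x := by
  by_cases hX : Subsingleton X
  · refine ⟨0, fun _ => 0, fun _ => 0, fun _ => le_rfl, summable_zero, ?_⟩
    have : x = 0 := Subsingleton.elim _ _
    subst this
    simp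
  have : Nontrivial X := not_subsingleton_iff_nontrivial.1 hX
  have hK0 : 0 ≤ K := (norm_nonneg _).trans (hK 0)
  -- the constants
  set c : ℝ := 1 / (2 * (K + 1)) with hc
  have hc0 : 0 < c := by positivity
  have hcK : c * K ≤ 1 / 2 := by
    rw [hc, div_mul_eq_mul_div, div_le_div_iff₀ (by positivity) (by norm_num)]
    linarith
  have hc1 : c ≤ 1 / 2 := by
    rw [hc, div_le_div_iff₀ (by positivity) (by norm_num)]
    linarith
  set t : ℝ := 1 - c with ht
  have ht0 : 0 < t := by rw [ht]; linarith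
  have ht1 : t < 1 := by rw [ht]; linarith
  -- the property carried along
  let P : ℕ → (X →L[ℂ] X) → Prop := fun k Q =>
    IsUnit (((t : ℂ) ^ k) • (1 : X →L[ℂ] X) + Q) ∧ Tendsto (fun n => T n * Q) atTop (𝓝 Q)
  have step : ∀ (k : ℕ) (Q : X →L[ℂ] X), P k Q → ∃ n : ℕ,
      P (k + 1) (Q + (((c * t ^ k : ℝ)) : ℂ) • T n) ∧
      ‖Ring.inverse (((t : ℂ) ^ (k + 1)) • (1 : X →L[ℂ] X) + (Q + (((c * t ^ k : ℝ)) : ℂ) • T n)) x -
        Ring.inverse (((t : ℂ) ^ k) • (1 : X →L[ℂ] X) + Q) x‖ ≤ (1 / 2) ^ k := by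
    rintro k Q ⟨hu, hQ⟩
    -- inverses of `E n = 1 - c (1 - T n)`
    have hV : ∀ n, ‖(c : ℂ) • (1 - T n)‖ ≤ 1 / 2 := by
      intro n
      rw [norm_smul, Complex.norm_real, Real.norm_of_nonneg hc0.le]
      exact (mul_le_mul_of_nonneg_left (hK n) hc0.le).trans hcK
    choose W hW1 hW2 hW3 using fun n => exists_inv ((c : ℂ) • (1 - T n)) (hV n)
    -- `W n * Q → Q`
    have hWQ : Tendsto (fun n => W n * Q) atTop (𝓝 Q) := by
      have e : ∀ n, W n * Q = Q - W n * ((c : ℂ) • (T n * Q - Q)) := by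
        intro n
        have h1 : W n * ((1 - (c : ℂ) • (1 - T n)) * Q) = Q := by
          rw [← mul_assoc, hW1, one_mul]
        have h2 : (1 - (c : ℂ) • (1 - T n)) * Q = Q + (c : ℂ) • (T n * Q - Q) := by
          rw [sub_mul, one_mul, smul_mul_assoc, sub_mul, one_mul, smul_sub, smul_sub]
          abel
        rw [h2, mul_add] at h1
        rw [eq_sub_iff_add_eq]
        exact h1
      have h3 : Tendsto (fun n => W n * ((c : ℂ) • (T n * Q - Q))) atTop (𝓝 0) := by
        have h4 : Tendsto (fun n => 2 * ‖(c : ℂ) • (T n * Q - Q)‖) atTop (𝓝 0) := by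
          have : Tendsto (fun n => T n * Q - Q) atTop (𝓝 (Q - Q)) := hQ.sub_const Q
          rw [sub_self] at this
          have h5 := ((this.const_smul (c : ℂ)).norm).const_mul 2
          simpa using h5
        refine squeeze_zero_norm (fun n => ?_) h4
        refine (norm_mul_le _ _).trans ?_
        exact mul_le_mul_of_nonneg_right (hW3 n) (norm_nonneg _)
      have h6 : Tendsto (fun n => Q - W n * ((c : ℂ) • (T n * Q - Q))) atTop (𝓝 (Q - 0)) :=
        tendsto_const_nhds.sub h3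
      rw [sub_zero] at h6
      exact h6.congr fun n => (e n).symm
    -- `W n x → x`
    have hWx : Tendsto (fun n => W n x) atTop (𝓝 x) := by
      have e : ∀ n, W n x = x - W n ((c : ℂ) • (T n x - x)) := by
        intro n
        have h1 : W n ((1 - (c : ℂ) • (1 - T n)) x) = x := by
          rw [← mul_apply_eq_comp, hW1, one_apply_eq_self]
        have h2 : (1 - (c : ℂ) • (1 - T n)) x = x + (c : ℂ) • (T n x - x) := by
          simp only [sub_apply, one_apply_eq_self,
            smul_apply, smul_sub]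
          abel
        rw [h2, map_add] at h1
        rw [eq_sub_iff_add_eq]
        exact h1
      have h3 : Tendsto (fun n => W n ((c : ℂ) • (T n x - x))) atTop (𝓝 0) := by
        have h4 : Tendsto (fun n => 2 * ‖(c : ℂ) • (T n x - x)‖) atTop (𝓝 0) := by
          have : Tendsto (fun n => T n x - x) atTop (𝓝 (x - x)) := hx.sub_const x
          rw [sub_self] at this
          have h5 := ((this.const_smul (c : ℂ)).norm).const_mul 2
          simpa using h5
        refine squeeze_zero_norm (fun n => ?_) h4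
        refine ((W n).le_opNorm _).trans ?_
        exact mul_le_mul_of_nonneg_right (hW3 n) (norm_nonneg _)
      have h6 : Tendsto (fun n => x - W n ((c : ℂ) • (T n x - x))) atTop (𝓝 (x - 0)) :=
        tendsto_const_nhds.sub h3
      rw [sub_zero] at h6
      exact h6.congr fun n => (e n).symm
    -- `C n = t^k + W n Q → B`
    set B : X →L[ℂ] X := ((t : ℂ) ^ k) • (1 : X →L[ℂ] X) + Q with hB
    have hC : Tendsto (fun n => ((t : ℂ) ^ k) • (1 : X →L[ℂ] X) + W n * Q) atTop (𝓝 B) :=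
      tendsto_const_nhds.add hWQ
    obtain ⟨ub, hub⟩ := hu
    have hCu : ∀ᶠ n in atTop, IsUnit (((t : ℂ) ^ k) • (1 : X →L[ℂ] X) + W n * Q) := by
      have : {b : X →L[ℂ] X | IsUnit b} ∈ 𝓝 B := by
        rw [← hub]
        exact Units.nhds ub
      exact hC this
    have hCi : Tendsto (fun n => Ring.inverse (((t : ℂ) ^ k) • (1 : X →L[ℂ] X) + W n * Q)) atTop
        (𝓝 (Ring.inverse B)) := by
      have h1 := NormedRing.inverse_continuousAt ub
      rw [hub] at h1
      exact h1.tendsto.comp hC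
    -- factorisation
    have hfac : ∀ n, ((t : ℂ) ^ (k + 1)) • (1 : X →L[ℂ] X) + (Q + (((c * t ^ k : ℝ)) : ℂ) • T n)
        = (1 - (c : ℂ) • (1 - T n)) * (((t : ℂ) ^ k) • (1 : X →L[ℂ] X) + W n * Q) := by
      intro n
      rw [mul_add, ← mul_assoc, hW2, one_mul, mul_smul_comm, mul_one]
      have e1 : ((t : ℂ) ^ k) • (1 - (c : ℂ) • (1 - T n))
          = ((t : ℂ) ^ (k + 1)) • (1 : X →L[ℂ] X) + (((c * t ^ k : ℝ)) : ℂ) • T n := by
        rw [ht]
        push_cast
        rw [smul_sub, smul_smul, smul_sub, pow_succ, mul_comm ((1 - (c : ℂ)) ^ k) (c : ℂ),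
          mul_sub, mul_one, sub_smul, mul_comm ((1 - (c : ℂ)) ^ k) (c : ℂ)]
        abel
      rw [e1]
      abel
    have hEu : ∀ n, IsUnit (1 - (c : ℂ) • (1 - T n)) := fun n =>
      ⟨⟨_, W n, hW2 n, hW1 n⟩, rfl⟩
    have hinv : ∀ n, IsUnit (((t : ℂ) ^ k) • (1 : X →L[ℂ] X) + W n * Q) →
        Ring.inverse (((t : ℂ) ^ (k + 1)) • (1 : X →L[ℂ] X) + (Q + (((c * t ^ k : ℝ)) : ℂ) • T n)) x
        = Ring.inverse (((t : ℂ) ^ k) • (1 : X →L[ℂ] X) + W n * Q) (W n x) := by
      intro n hn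
      have e0 : Ring.inverse ((1 - (c : ℂ) • (1 - T n))) = W n := by
        have : ((1 - (c : ℂ) • (1 - T n))) =
          ((⟨_, W n, hW2 n, hW1 n⟩ : (X →L[ℂ] X)ˣ) : X →L[ℂ] X) := rfl
        rw [this, Ring.inverse_unit]
        rfl
      rw [hfac n]
      obtain ⟨u, hu⟩ := hn
      rw [← hu]
      have : ((1 - (c : ℂ) • (1 - T n))) =
          ((⟨_, W n, hW2 n, hW1 n⟩ : (X →L[ℂ] X)ˣ) : X →L[ℂ] X) := rfl
      rw [this, ← Units.val_mul, Ring.inverse_unit, mul_inv_rev, Units.val_mul, Ring.inverse_unit]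
      rfl
    have hlim : Tendsto (fun n => Ring.inverse (((t : ℂ) ^ k) • (1 : X →L[ℂ] X) + W n * Q) (W n x))
        atTop (𝓝 (Ring.inverse B x)) := by
      have h1 : Tendsto (fun n => (Ring.inverse (((t : ℂ) ^ k) • (1 : X →L[ℂ] X) + W n * Q), W n x))
          atTop (𝓝 (Ring.inverse B, x)) := hCi.prodMk_nhds hWx
      have h2 : Continuous (fun p : (X →L[ℂ] X) × X => p.1 p.2) := by
        exact isBoundedBilinearMap_apply.continuous
      exact (h2.tendsto _).comp h1
    have hclose : ∀ᶠ n in atTop,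
        ‖Ring.inverse (((t : ℂ) ^ k) • (1 : X →L[ℂ] X) + W n * Q) (W n x) - Ring.inverse B x‖
          ≤ (1 / 2) ^ k := by
      have h1 := tendsto_iff_norm_sub_tendsto_zero.1 hlim
      have h2 : (0 : ℝ) < (1 / 2) ^ k := by positivity
      exact (h1.eventually (ge_mem_nhds h2))
    obtain ⟨n, hn1, hn2⟩ := (hCu.and hclose).exists
    refine ⟨n, ⟨?_, ?_⟩, ?_⟩
    · rw [hfac n]
      exact (hEu n).mul hn1
    · have h1 : Tendsto (fun j => T j * Q + (((c * t ^ k : ℝ)) : ℂ) • (T j * T n)) atTop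
          (𝓝 (Q + (((c * t ^ k : ℝ)) : ℂ) • T n)) := hQ.add ((hT n).const_smul _)
      refine h1.congr fun j => ?_
      rw [mul_add, mul_smul_comm]
    · rw [hinv n hn1]
      exact hn2
  choose! N hN using step
  -- the sequence
  let Q : ℕ → (X →L[ℂ] X) := fun k => Nat.rec 0 (fun k Q => Q + (((c * t ^ k : ℝ)) : ℂ) • T (N k Q)) k
  have hQs : ∀ k, Q (k + 1) = Q k + (((c * t ^ k : ℝ)) : ℂ) • T (N k (Q k)) := fun k => rfl
  have hP : ∀ k, P k (Q k) := by
    intro k
    induction k with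
    | zero =>
      refine ⟨?_, ?_⟩
      · have : ((t : ℂ) ^ 0) • (1 : X →L[ℂ] X) + Q 0 = 1 := by
          show ((t : ℂ) ^ 0) • (1 : X →L[ℂ] X) + 0 = 1
          simp
        rw [this]; exact isUnit_one
      · show Tendsto (fun n => T n * 0) atTop (𝓝 0)
        simp
    | succ k ih =>
      rw [hQs]
      exact (hN k (Q k) ih).1
  let y : ℕ → X := fun k => Ring.inverse (((t : ℂ) ^ k) • (1 : X →L[ℂ] X) + Q k) x
  have hyd : ∀ k, dist (y k) (y (k + 1)) ≤ 1 * (1 / 2) ^ k := by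
    intro k
    rw [one_mul, dist_comm, dist_eq_norm]
    have := (hN k (Q k) (hP k)).2
    rw [← hQs] at this
    exact this
  have hyc : CauchySeq y := cauchySeq_of_le_geometric (1 / 2) 1 (by norm_num) hyd
  obtain ⟨z, hz⟩ := cauchySeq_tendsto_of_complete hyc
  have hsumc : Summable (fun k : ℕ => c * t ^ k) :=
    (summable_geometric_of_lt_one ht0.le ht1).mul_left c
  refine ⟨z, fun k => c * t ^ k, fun k => N k (Q k), fun k => by positivity, hsumc, ?_⟩
  -- norm bound on `T`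
  have hTn : ∀ n, ‖T n‖ ≤ K + 1 := by
    intro n
    have h1 : T n = 1 - (1 - T n) := by abel
    rw [h1]
    refine (norm_sub_le _ _).trans ?_
    rw [norm_one]
    linarith [hK n]
  have hsumT : Summable (fun k : ℕ => (((c * t ^ k : ℝ)) : ℂ) • T (N k (Q k))) := by
    refine Summable.of_norm_bounded (hsumc.mul_right (K + 1)) fun k => ?_
    rw [norm_smul, Complex.norm_real, Real.norm_of_nonneg (by positivity)]
    exact mul_le_mul_of_nonneg_left (hTn _) (by positivity)
  set Q' : X →L[ℂ] X := ∑' k : ℕ, (((c * t ^ k : ℝ)) : ℂ) • T (N k (Q k)) with hQ'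
  have hQrange : ∀ k, Q k = ∑ j ∈ Finset.range k, (((c * t ^ j : ℝ)) : ℂ) • T (N j (Q j)) := by
    intro k
    induction k with
    | zero => rfl
    | succ k ih => rw [hQs, Finset.sum_range_succ, ← ih]
  have hQlim : Tendsto Q atTop (𝓝 Q') := by
    refine (hsumT.hasSum.tendsto_sum_nat).congr fun k => ?_
    exact (hQrange k).symm
  have hBlim : Tendsto (fun k => ((t : ℂ) ^ k) • (1 : X →L[ℂ] X) + Q k) atTop (𝓝 Q') := by
    have h1 : Tendsto (fun k : ℕ => (t : ℂ) ^ k) atTop (𝓝 0) := by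
      apply tendsto_pow_atTop_nhds_zero_of_norm_lt_one
      rw [Complex.norm_real, Real.norm_of_nonneg ht0.le]
      exact ht1
    have h2 := (h1.smul_const (1 : X →L[ℂ] X)).add hQlim
    simpa using h2
  have hBy : ∀ k, (((t : ℂ) ^ k) • (1 : X →L[ℂ] X) + Q k) (y k) = x := by
    intro k
    show (((t : ℂ) ^ k) • (1 : X →L[ℂ] X) + Q k)
      ((Ring.inverse (((t : ℂ) ^ k) • (1 : X →L[ℂ] X) + Q k)) x) = x
    rw [← mul_apply_eq_comp, Ring.mul_inverse_cancel _ (hP k).1,
      one_apply_eq_self]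
  have hfin : Q' z = x := by
    have h2 : Continuous (fun p : (X →L[ℂ] X) × X => p.1 p.2) :=
      isBoundedBilinearMap_apply.continuous
    have h3 := (h2.tendsto (Q', z)).comp (hBlim.prodMk_nhds hz)
    have h4 : Tendsto (fun k => (((t : ℂ) ^ k) • (1 : X →L[ℂ] X) + Q k) (y k)) atTop
        (𝓝 (Q' z)) := h3
    refine tendsto_nhds_unique h4 ?_
    simp only [hBy]
    exact tendsto_const_nhds
  have h5 := (ContinuousLinearMap.apply ℂ X z).hasSum hsumT.hasSum
  rw [← hfin]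
  exact h5

/-- Cohen's factorisation theorem in a closed invariant subspace. -/
theorem cohen_inv (T : ℕ → X →L[ℂ] X) (J : Submodule ℂ X) (hJ : IsClosed (J : Set X))
    (hTJ : ∀ n, ∀ x ∈ J, T n x ∈ J) (K : ℝ) (hK : ∀ n, ‖1 - T n‖ ≤ K)
    (hT : ∀ m, Tendsto (fun n => T n * T m) atTop (𝓝 (T m)))
    (x : X) (hxJ : x ∈ J) (hx : Tendsto (fun n => T n x) atTop (𝓝 x)) :
    ∃ y ∈ J, ∃ (c : ℕ → ℝ) (n : ℕ → ℕ), (∀ k, 0 ≤ c k) ∧ Summable c ∧
      HasSum (fun k => (c k : ℂ) • T (n k) y) x := by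
  have : CompleteSpace J := hJ.completeSpace_coe
  have hK0 : 0 ≤ K := (norm_nonneg _).trans (hK 0)
  let T' : ℕ → (J →L[ℂ] J) := fun n =>
    ((T n).comp J.subtypeL).codRestrict J (fun x => hTJ n x x.2)
  have hT' : ∀ n (z : J), ((T' n z : J) : X) = T n z := fun n z => rfl
  have h1 : ∀ n, ‖1 - T' n‖ ≤ K := by
    intro n
    refine ContinuousLinearMap.opNorm_le_bound _ hK0 fun z => ?_
    have : ‖(1 - T' n) z‖ = ‖(1 - T n) (z : X)‖ := rfl
    rw [this]
    exact ((1 - T n).le_opNorm _).trans (mul_le_mul_of_nonneg_right (hK n) (norm_nonneg _))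
  have h2 : ∀ m, Tendsto (fun n => T' n * T' m) atTop (𝓝 (T' m)) := by
    intro m
    have h3 := tendsto_iff_norm_sub_tendsto_zero.1 (hT m)
    have h4 : Tendsto (fun n => ‖T' n * T' m - T' m‖) atTop (𝓝 0) := by
      refine squeeze_zero (fun n => ContinuousLinearMap.opNorm_nonneg _) (fun n => ?_) h3
      refine ContinuousLinearMap.opNorm_le_bound _ (norm_nonneg _) fun z => ?_
      have : ‖(T' n * T' m - T' m) z‖ = ‖(T n * T m - T m) (z : X)‖ := rfl
      rw [this]
      exact (T n * T m - T m).le_opNorm _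
    exact (tendsto_iff_norm_sub_tendsto_zero (E := J →L[ℂ] J)).2 h4
  have h3 : Tendsto (fun n => T' n ⟨x, hxJ⟩) atTop (𝓝 (⟨x, hxJ⟩ : J)) := by
    rw [tendsto_subtype_rng]
    exact hx
  obtain ⟨y, c, n, hc, hcs, hs⟩ := cohen T' K h1 h2 ⟨x, hxJ⟩ h3
  refine ⟨y, y.2, c, n, hc, hcs, ?_⟩
  exact J.subtypeL.hasSum hs

end

end Q164.W2
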