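import Mathlib

/-!
# A second moment bound for planted words
-/

set_option autoImplicit false

namespace Q164.W2

open Filter Topology ComplexConjugate

section
variable {A : Type*} [NormedRing A] [NormedAlgebra ℂ A] [CompleteSpace A]
variable {G : Type} [Monoid G]

/-- `s 0 = 0`, `s (n + 1) = s n * Mb + Ma ^ n * a` -/
def sq (Ma Mb a : A) : ℕ → A
  | 0 => 0
  | n + 1 => sq Ma Mb a n * Mb + Ma ^ n * a

/-- summability of the norms -/
theorem summable_norm_of_sq {Ω : Type} {p : Ω → ℝ} {F : Ω → ℂ} {q : ℝ} (hp : ∀ ω, 0 ≤ p ω)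
    (hp1 : HasSum p 1) (hq : HasSum (fun ω => p ω * ‖F ω‖ ^ 2) q) :
    Summable (fun ω => p ω * ‖F ω‖) := by
  refine Summable.of_nonneg_of_le (fun ω => mul_nonneg (hp ω) (norm_nonneg _)) (fun ω => ?_)
    (hp1.summable.add hq.summable)
  have h1 : ‖F ω‖ ≤ 1 + ‖F ω‖ ^ 2 := by nlinarith [sq_nonneg (‖F ω‖ - 1), norm_nonneg (F ω)]
  calc p ω * ‖F ω‖ ≤ p ω * (1 + ‖F ω‖ ^ 2) := mul_le_mul_of_nonneg_left h1 (hp ω)
    _ = p ω + p ω * ‖F ω‖ ^ 2 := by ring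

omit [CompleteSpace A] in
theorem summable_norm_smul {Ω : Type} {G : Type} {δ : G → A} (hδ : ∀ g, ‖δ g‖ ≤ 1) {f : Ω → ℂ} {Y : Ω → G}
    (hf : Summable fun ω => ‖f ω‖) : Summable fun ω => ‖f ω • δ (Y ω)‖ := by
  refine Summable.of_nonneg_of_le (fun ω => norm_nonneg _) (fun ω => ?_) hf
  rw [norm_smul]
  calc ‖f ω‖ * ‖δ (Y ω)‖ ≤ ‖f ω‖ * 1 := mul_le_mul_of_nonneg_left (hδ _) (norm_nonneg _)
    _ = ‖f ω‖ := mul_one _

theorem hasSum_conv {Ω Ω' : Type} {δ : G → A} (hδ : ∀ g, ‖δ g‖ ≤ 1)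
    (hδm : ∀ g h, δ (g * h) = δ g * δ h)
    {f : Ω → ℂ} {Y : Ω → G} {f' : Ω' → ℂ} {Y' : Ω' → G} {x x' : A}
    (hf : Summable fun ω => ‖f ω‖) (hf' : Summable fun ω => ‖f' ω‖)
    (hx : HasSum (fun ω => f ω • δ (Y ω)) x) (hx' : HasSum (fun ω => f' ω • δ (Y' ω)) x') :
    HasSum (fun z : Ω × Ω' => (f z.1 * f' z.2) • δ (Y z.1 * Y' z.2)) (x * x') := by
  have h1 := summable_mul_of_summable_norm (summable_norm_smul hδ (Y := Y) hf)
    (summable_norm_smul hδ (Y := Y') hf')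
  have h2 := hx.mul hx' h1
  refine h2.congr_fun ?_
  intro z
  rw [hδm, smul_mul_smul_comm]

theorem model {δ : G → A} (hδ : ∀ g, ‖δ g‖ ≤ 1) (hδm : ∀ g h, δ (g * h) = δ g * δ h)
    (hδ1 : δ 1 = 1)
    {μ : G → ℝ} (hμ0 : ∀ g, 0 ≤ μ g) (hμ1 : HasSum μ 1)
    {α β : G → ℂ} (hα : ∀ g, ‖α g‖ = 1) (hβ : ∀ g, ‖β g‖ = 1)
    (hαm : ∀ g h, α (g * h) = α g * α h) (hα1 : α 1 = 1)
    {m : G → ℂ} {C : ℝ} (hm : ∀ g, ‖m g‖ ≤ C)
    (hz : HasSum (fun v => ((μ v : ℂ) * β v) * conj (m v)) 0)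
    {Ma Mb a : A} (hMa : HasSum (fun v => ((μ v : ℂ) * α v) • δ v) Ma)
    (hMb : HasSum (fun v => ((μ v : ℂ) * β v) • δ v) Mb)
    (ha : HasSum (fun v => ((μ v : ℂ) * m v) • δ v) a) (n : ℕ) :
    ∃ (Ω : Type) (p : Ω → ℝ) (Y : Ω → G) (F : Ω → ℂ) (q : ℝ), (∀ ω, 0 ≤ p ω) ∧ HasSum p 1 ∧
      HasSum (fun ω => p ω * ‖F ω‖ ^ 2) q ∧ q ≤ n * C ^ 2 ∧
      HasSum (fun ω => ((p ω : ℂ) * F ω) • δ (Y ω)) (sq Ma Mb a n) ∧
      HasSum (fun ω => ((p ω : ℂ) * α (Y ω)) • δ (Y ω)) (Ma ^ n) := by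
  induction n with
  | zero =>
    refine ⟨Unit, fun _ => 1, fun _ => 1, fun _ => 0, 0, fun _ => zero_le_one, ?_, ?_, ?_, ?_, ?_⟩
    · exact hasSum_unique (fun _ : Unit => (1 : ℝ))
    · simp
    · simp
    · simp [sq]
    · have := hasSum_unique (fun _ : Unit => (((1 : ℝ) : ℂ) * α 1) • δ 1)
      simpa [hα1, hδ1] using this
  | succ n ih =>
    obtain ⟨Ω, p, Y, F, q, hp, hp1, hq, hqn, hs, hM⟩ := ih
    -- summability facts
    have hC0 : 0 ≤ C := (norm_nonneg _).trans (hm 1)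
    have hpF : Summable fun ω => ‖(p ω : ℂ) * F ω‖ := by
      refine (summable_norm_of_sq hp hp1 hq).congr fun ω => ?_
      rw [norm_mul, Complex.norm_real, Real.norm_of_nonneg (hp ω)]
    have hpα : Summable fun ω => ‖(p ω : ℂ) * α (Y ω)‖ := by
      refine hp1.summable.congr fun ω => ?_
      rw [norm_mul, Complex.norm_real, Real.norm_of_nonneg (hp ω), hα, mul_one]
    have hμβ : Summable fun v => ‖(μ v : ℂ) * β v‖ := by
      refine hμ1.summable.congr fun v => ?_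
      rw [norm_mul, Complex.norm_real, Real.norm_of_nonneg (hμ0 v), hβ, mul_one]
    have hμα : Summable fun v => ‖(μ v : ℂ) * α v‖ := by
      refine hμ1.summable.congr fun v => ?_
      rw [norm_mul, Complex.norm_real, Real.norm_of_nonneg (hμ0 v), hα, mul_one]
    have hμm : Summable fun v => ‖(μ v : ℂ) * m v‖ := by
      refine Summable.of_nonneg_of_le (fun v => norm_nonneg _) (fun v => ?_)
        (hμ1.summable.mul_right C)
      rw [norm_mul, Complex.norm_real, Real.norm_of_nonneg (hμ0 v)]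
      exact mul_le_mul_of_nonneg_left (hm v) (hμ0 v)
    have hμm2 : Summable fun v => μ v * ‖m v‖ ^ 2 := by
      refine Summable.of_nonneg_of_le (fun v => mul_nonneg (hμ0 v) (by positivity)) (fun v => ?_)
        (hμ1.summable.mul_right (C ^ 2))
      refine mul_le_mul_of_nonneg_left ?_ (hμ0 v)
      exact pow_le_pow_left₀ (norm_nonneg _) (hm v) 2
    have hμm2' : ∑' v, μ v * ‖m v‖ ^ 2 ≤ C ^ 2 := by
      have h1 := hμm2.tsum_le_tsum (g := fun v => μ v * C ^ 2) (fun v =>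
        mul_le_mul_of_nonneg_left (pow_le_pow_left₀ (norm_nonneg _) (hm v) 2) (hμ0 v))
        (hμ1.summable.mul_right (C ^ 2))
      rw [tsum_mul_right, hμ1.tsum_eq, one_mul] at h1
      exact h1
    -- the cross term
    obtain ⟨f1, hf1⟩ : ∃ f1 : Ω → ℂ, f1 = fun ω => ((p ω : ℂ) * F ω) * conj (α (Y ω)) := ⟨_, rfl⟩
    obtain ⟨f2, hf2⟩ : ∃ f2 : G → ℂ, f2 = fun v => ((μ v : ℂ) * β v) * conj (m v) := ⟨_, rfl⟩
    have hf1s : Summable fun ω => ‖f1 ω‖ := by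
      refine hpF.congr fun ω => ?_
      rw [hf1]
      simp only [norm_mul, Complex.norm_conj, hα, mul_one]
    have hzs : Summable fun v => ‖f2 v‖ := by
      refine hμm.congr fun v => ?_
      rw [hf2]
      simp only [norm_mul, Complex.norm_conj, hβ, mul_one]
    have hz' : HasSum f2 0 := by rw [hf2]; exact hz
    have hf1sum : Summable f1 := hf1s.of_norm
    have hcross : HasSum (fun z : Ω × G => f1 z.1 * f2 z.2) 0 := by
      have h1 := hf1sum.hasSum.mul hz' (summable_mul_of_summable_norm hf1s hzs)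
      rwa [mul_zero] at h1
    have hcross' : HasSum (fun z : Ω × G => (f1 z.1 * f2 z.2).re) 0 := by
      have := Complex.reCLM.hasSum hcross
      simpa using this
    -- the two squares
    have hsq1s : Summable (fun z : Ω × G => (p z.1 * ‖F z.1‖ ^ 2) * μ z.2) :=
      summable_mul_of_summable_norm (f := fun ω => p ω * ‖F ω‖ ^ 2) (g := μ)
        hq.summable.norm hμ1.summable.norm
    have hsq1 : HasSum (fun z : Ω × G => (p z.1 * ‖F z.1‖ ^ 2) * μ z.2) (q * 1) :=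
      hq.mul hμ1 hsq1s
    have hsq2s : Summable (fun z : Ω × G => p z.1 * (μ z.2 * ‖m z.2‖ ^ 2)) :=
      summable_mul_of_summable_norm (f := p) (g := fun v => μ v * ‖m v‖ ^ 2)
        hp1.summable.norm hμm2.norm
    have hsq2 : HasSum (fun z : Ω × G => p z.1 * (μ z.2 * ‖m z.2‖ ^ 2))
        (1 * ∑' v, μ v * ‖m v‖ ^ 2) := hp1.mul hμm2.hasSum hsq2s
    have hpμs : Summable (fun z : Ω × G => p z.1 * μ z.2) :=
      summable_mul_of_summable_norm (f := p) (g := μ) hp1.summable.norm hμ1.summable.norm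
    refine ⟨Ω × G, fun z => p z.1 * μ z.2, fun z => Y z.1 * z.2,
      fun z => F z.1 * β z.2 + α (Y z.1) * m z.2,
      q * 1 + 1 * (∑' v, μ v * ‖m v‖ ^ 2) + 2 * 0, ?_, ?_, ?_, ?_, ?_, ?_⟩
    · intro z; exact mul_nonneg (hp _) (hμ0 _)
    · have h1 := hp1.mul hμ1 hpμs
      rwa [mul_one] at h1
    · refine ((hsq1.add hsq2).add (hcross'.mul_left 2)).congr_fun ?_
      intro z
      have e1 : ‖F z.1 * β z.2 + α (Y z.1) * m z.2‖ ^ 2
          = ‖F z.1‖ ^ 2 + ‖m z.2‖ ^ 2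
            + 2 * ((F z.1 * β z.2) * conj (α (Y z.1) * m z.2)).re := by
        rw [← Complex.normSq_eq_norm_sq, Complex.normSq_add, Complex.normSq_eq_norm_sq,
          Complex.normSq_eq_norm_sq, norm_mul, norm_mul, hβ, hα, mul_one, one_mul]
      rw [e1, hf1, hf2]
      have e2 : (((p z.1 : ℂ) * F z.1) * conj (α (Y z.1)) * (((μ z.2 : ℂ) * β z.2) * conj (m z.2))).re
          = p z.1 * μ z.2 * ((F z.1 * β z.2) * conj (α (Y z.1) * m z.2)).re := by
        have e3 : ((p z.1 : ℂ) * F z.1) * conj (α (Y z.1)) * (((μ z.2 : ℂ) * β z.2) * conj (m z.2))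
            = ((p z.1 * μ z.2 : ℝ) : ℂ) * ((F z.1 * β z.2) * conj (α (Y z.1) * m z.2)) := by
          rw [map_mul]; push_cast; ring
        rw [e3, Complex.re_ofReal_mul]
      simp only [e2]
      ring
    · push_cast
      linarith
    · have h1 := hasSum_conv hδ hδm hpF hμβ hs hMb
      have h2 := hasSum_conv hδ hδm hpα hμm hM ha
      refine (h1.add h2).congr_fun ?_
      intro z
      rw [← add_smul]
      congr 1
      push_cast
      ring
    · have h2 := hasSum_conv hδ hδm hpα hμα hM hMa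
      rw [pow_succ]
      refine h2.congr_fun ?_
      intro z
      congr 1
      rw [hαm]
      push_cast
      ring

theorem norm_sq_le {δ : G → A} (hδ : ∀ g, ‖δ g‖ ≤ 1) (hδm : ∀ g h, δ (g * h) = δ g * δ h)
    (hδ1 : δ 1 = 1)
    {μ : G → ℝ} (hμ0 : ∀ g, 0 ≤ μ g) (hμ1 : HasSum μ 1)
    {α β : G → ℂ} (hα : ∀ g, ‖α g‖ = 1) (hβ : ∀ g, ‖β g‖ = 1)
    (hαm : ∀ g h, α (g * h) = α g * α h) (hα1 : α 1 = 1)
    {m : G → ℂ} {C : ℝ} (hC : 0 < C) (hm : ∀ g, ‖m g‖ ≤ C)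
    (hz : HasSum (fun v => ((μ v : ℂ) * β v) * conj (m v)) 0)
    {Ma Mb a : A} (hMa : HasSum (fun v => ((μ v : ℂ) * α v) • δ v) Ma)
    (hMb : HasSum (fun v => ((μ v : ℂ) * β v) • δ v) Mb)
    (ha : HasSum (fun v => ((μ v : ℂ) * m v) • δ v) a) (n : ℕ) :
    ‖sq Ma Mb a n‖ ≤ C * Real.sqrt n := by
  obtain ⟨Ω, p, Y, F, q, hp, hp1, hq, hqn, hs, -⟩ :=
    model hδ hδm hδ1 hμ0 hμ1 hα hβ hαm hα1 hm hz hMa hMb ha n
  rcases Nat.eq_zero_or_pos n with hn | hn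
  · subst hn
    simp [sq]
  · have hn' : (0 : ℝ) < n := by exact_mod_cast hn
    set t : ℝ := C * Real.sqrt n with ht
    have ht0 : 0 < t := mul_pos hC (Real.sqrt_pos.2 hn')
    have ht2 : t ^ 2 = n * C ^ 2 := by
      rw [ht, mul_pow, Real.sq_sqrt hn'.le]; ring
    have hb : HasSum (fun ω => (p ω * t + p ω * ‖F ω‖ ^ 2 * (1 / t)) * (1 / 2))
        ((1 * t + q * (1 / t)) * (1 / 2)) :=
      ((hp1.mul_right t).add (hq.mul_right (1 / t))).mul_right (1 / 2)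
    have h1 : ‖sq Ma Mb a n‖ ≤ (1 * t + q * (1 / t)) * (1 / 2) := by
      refine hs.norm_le_of_bounded hb fun ω => ?_
      rw [norm_smul, norm_mul, Complex.norm_real, Real.norm_of_nonneg (hp ω)]
      have h2 : ‖F ω‖ ≤ (t + ‖F ω‖ ^ 2 * (1 / t)) * (1 / 2) := by
        have h3 : 2 * t * ‖F ω‖ ≤ t ^ 2 + ‖F ω‖ ^ 2 := by nlinarith [sq_nonneg (t - ‖F ω‖)]
        have h4 : (t + ‖F ω‖ ^ 2 * (1 / t)) * (1 / 2) = (t ^ 2 + ‖F ω‖ ^ 2) / (2 * t) := by
          field_simp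
        rw [h4, le_div_iff₀ (by positivity)]
        linarith
      calc p ω * ‖F ω‖ * ‖δ (Y ω)‖ ≤ p ω * ‖F ω‖ * 1 :=
            mul_le_mul_of_nonneg_left (hδ _) (mul_nonneg (hp ω) (norm_nonneg _))
        _ ≤ p ω * ((t + ‖F ω‖ ^ 2 * (1 / t)) * (1 / 2)) := by
            rw [mul_one]; exact mul_le_mul_of_nonneg_left h2 (hp ω)
        _ = _ := by ring
    refine h1.trans ?_
    have h5 : q * (1 / t) ≤ t := by
      rw [mul_one_div, div_le_iff₀ ht0, ← pow_two, ht2]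
      exact hqn
    linarith

end

end Q164.W2
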