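import Mathlib
import Pool.Agent.H937R3.EllOne
import Pool.Agent.Q164.W2.Cohen
import Pool.Agent.Q164.W2.Avg
import Pool.Agent.Q164.W2.Model

/-!
# Factorisation in ideals of `ℓ¹(G)` for a pair of characters
-/

set_option autoImplicit false

namespace Q164.W2

open Filter Topology ComplexConjugate H937R3

section general
variable {A : Type*} [NormedRing A] [NormedAlgebra ℂ A] [CompleteSpace A] [NormOneClass A]

/-- left multiplication -/
noncomputable def Lm (a : A) : A →L[ℂ] A := ContinuousLinearMap.mul ℂ A a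

/-- right multiplication -/
noncomputable def Rm (a : A) : A →L[ℂ] A := (ContinuousLinearMap.mul ℂ A).flip a

omit [CompleteSpace A] [NormOneClass A] in
theorem Lm_apply (a x : A) : Lm a x = a * x := rfl
omit [CompleteSpace A] [NormOneClass A] in
theorem Rm_apply (a x : A) : Rm a x = x * a := rfl

omit [CompleteSpace A] [NormOneClass A] in
theorem norm_Lm_le (a : A) : ‖Lm a‖ ≤ ‖a‖ :=
  ContinuousLinearMap.opNorm_le_bound _ (norm_nonneg _) fun x => norm_mul_le a x

omit [CompleteSpace A] [NormOneClass A] in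
theorem norm_Rm_le (a : A) : ‖Rm a‖ ≤ ‖a‖ :=
  ContinuousLinearMap.opNorm_le_bound _ (norm_nonneg _) fun x => by
    rw [Rm_apply, mul_comm]; exact norm_mul_le x a

omit [CompleteSpace A] [NormOneClass A] in
theorem comm_Lm_Rm (a b : A) : Commute (Lm a) (Rm b) := by
  ext x
  exact (mul_assoc a x b).symm

omit [CompleteSpace A] [NormOneClass A] in
theorem Lm_pow (a : A) (n : ℕ) (x : A) : (Lm a ^ n) x = a ^ n * x := by
  induction n generalizing x with
  | zero => simp
  | succ n ih => rw [pow_succ, mul_apply_eq_comp, ih, Lm_apply, pow_succ, mul_assoc]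

omit [CompleteSpace A] [NormOneClass A] in
theorem Rm_pow (a : A) (n : ℕ) (x : A) : (Rm a ^ n) x = x * a ^ n := by
  induction n generalizing x with
  | zero => simp
  | succ n ih => rw [pow_succ, mul_apply_eq_comp, ih, Rm_apply, pow_succ', mul_assoc]

omit [CompleteSpace A] [NormOneClass A] in
theorem S_op_eq (a b x : A) (n : ℕ) : S (Lm a) (Rm b) n x = sq a b x n := by
  induction n with
  | zero => rfl
  | succ n ih =>
    rw [S_succ'' (comm_Lm_Rm a b), add_apply, mul_apply_eq_comp, ih, Rm_apply, Lm_pow]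
    rfl

omit [CompleteSpace A] [NormOneClass A] in
/-- `S` for two left multiplications -/
theorem S_Lm (a b x : A) (n : ℕ) : S (Lm a) (Lm b) n x = S a b n * x := by
  induction n with
  | zero => simp [S]
  | succ n ih =>
    rw [S_succ, S_succ, add_apply, mul_apply_eq_comp, ih, Lm_apply, Lm_pow, add_mul, mul_assoc]

omit [CompleteSpace A] [NormOneClass A] in
theorem Tri_Lm (a b x : A) (n : ℕ) : Tri (Lm a) (Lm b) n x = Tri a b n * x := by
  induction n with
  | zero => simp [Tri]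
  | succ n ih => rw [Tri_succ, Tri_succ, add_apply, ih, S_Lm, add_mul]

omit [CompleteSpace A] [NormOneClass A] in
theorem W_Lm (a b x : A) (n : ℕ) : W (Lm a) (Lm b) n x = W a b n * x := by
  unfold W
  rw [smul_apply, Tri_Lm, smul_mul_assoc]

omit [CompleteSpace A] [NormOneClass A] in
/-- a multiplicative functional takes the value `1` on the averages -/
theorem char_S {φ : A →L[ℂ] ℂ} (hφ : ∀ x y, φ (x * y) = φ x * φ y) (hφ1 : φ 1 = 1) {a b : A}
    (ha : φ a = 1) (hb : φ b = 1) (n : ℕ) : φ (S a b n) = n := by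
  have hp : ∀ n : ℕ, φ (b ^ n) = 1 := by
    intro n
    induction n with
    | zero => simpa using hφ1
    | succ n ih => rw [pow_succ, hφ, ih, hb, one_mul]
  induction n with
  | zero => simp [S]
  | succ n ih => rw [S_succ, map_add, hφ, ha, ih, hp]; push_cast; ring

omit [CompleteSpace A] [NormOneClass A] in
theorem char_Tri {φ : A →L[ℂ] ℂ} (hφ : ∀ x y, φ (x * y) = φ x * φ y) (hφ1 : φ 1 = 1) {a b : A}
    (ha : φ a = 1) (hb : φ b = 1) (n : ℕ) : φ (Tri a b n) = n * (n + 1) / 2 := by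
  induction n with
  | zero => simp [Tri]
  | succ n ih => rw [Tri_succ, map_add, ih, char_S hφ hφ1 ha hb]; push_cast; ring

omit [CompleteSpace A] [NormOneClass A] in
theorem char_W {φ : A →L[ℂ] ℂ} (hφ : ∀ x y, φ (x * y) = φ x * φ y) (hφ1 : φ 1 = 1) {a b : A}
    (ha : φ a = 1) (hb : φ b = 1) (n : ℕ) : φ (W a b n) = 1 := by
  unfold W
  rw [map_smul, char_Tri hφ hφ1 ha hb, smul_eq_mul]
  unfold tau
  push_cast
  have h1 : (n : ℂ) + 1 ≠ 0 := by exact_mod_cast Nat.succ_ne_zero n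
  have h2 : (n : ℂ) + 2 ≠ 0 := by exact_mod_cast Nat.succ_ne_zero (n + 1)
  field_simp
  ring

/-- the closed right ideal generated by `1 - a` -/
noncomputable def RI (a : A) : Submodule ℂ A :=
  (LinearMap.range (Lm (1 - a)).toLinearMap).topologicalClosure

omit [CompleteSpace A] [NormOneClass A] in
theorem RI_closed (a : A) : IsClosed (RI a : Set A) := Submodule.isClosed_topologicalClosure _

omit [CompleteSpace A] [NormOneClass A] in
theorem mem_RI (a x : A) : (1 - a) * x ∈ RI a :=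
  Submodule.le_topologicalClosure _ ⟨x, rfl⟩

omit [CompleteSpace A] [NormOneClass A] in
theorem S_mod_RI (a b x : A) (n : ℕ) : x * S 1 b n - S (Lm a) (Rm b) n x ∈ RI a := by
  induction n with
  | zero => simp [S]
  | succ n ih =>
    have e : x * S 1 b (n + 1) - S (Lm a) (Rm b) (n + 1) x
        = (x * S 1 b n - S (Lm a) (Rm b) n x) + (1 - a) * (S (Lm a) (Rm b) n x) := by
      rw [S_succ, S_succ, add_apply, mul_apply_eq_comp, Lm_apply, Rm_pow, mul_add, one_mul,
        sub_mul, one_mul]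
      abel
    rw [e]
    exact (RI a).add_mem ih (mem_RI _ _)

omit [CompleteSpace A] [NormOneClass A] in
theorem Tri_mod_RI (a b x : A) (n : ℕ) : x * Tri 1 b n - Tri (Lm a) (Rm b) n x ∈ RI a := by
  induction n with
  | zero => simp [Tri]
  | succ n ih =>
    have e : x * Tri 1 b (n + 1) - Tri (Lm a) (Rm b) (n + 1) x
        = (x * Tri 1 b n - Tri (Lm a) (Rm b) n x)
          + (x * S 1 b (n + 1) - S (Lm a) (Rm b) (n + 1) x) := by
      rw [Tri_succ, Tri_succ, add_apply, mul_add]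
      abel
    rw [e]
    exact (RI a).add_mem ih (S_mod_RI _ _ _ _)

omit [CompleteSpace A] [NormOneClass A] in
theorem W_mod_RI (a b x : A) (n : ℕ) : x * W 1 b n - W (Lm a) (Rm b) n x ∈ RI a := by
  unfold W
  rw [smul_apply, mul_smul_comm, ← smul_sub]
  exact (RI a).smul_mem _ (Tri_mod_RI _ _ _ _)

omit [CompleteSpace A] [NormOneClass A] in
theorem S_mem (J : Submodule ℂ A) (hl : ∀ x ∈ J, ∀ a, a * x ∈ J) (hr : ∀ x ∈ J, ∀ a, x * a ∈ J)
    (a b x : A) (hx : x ∈ J) (n : ℕ) : S (Lm a) (Rm b) n x ∈ J := by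
  induction n with
  | zero => simp [S]
  | succ n ih =>
    rw [S_succ, add_apply, mul_apply_eq_comp, Lm_apply, Rm_pow]
    exact J.add_mem (hl _ ih _) (hr _ hx _)

omit [CompleteSpace A] [NormOneClass A] in
theorem W_mem (J : Submodule ℂ A) (hl : ∀ x ∈ J, ∀ a, a * x ∈ J) (hr : ∀ x ∈ J, ∀ a, x * a ∈ J)
    (a b x : A) (hx : x ∈ J) (n : ℕ) : W (Lm a) (Rm b) n x ∈ J := by
  have h : ∀ n, Tri (Lm a) (Rm b) n x ∈ J := by
    intro n
    induction n with
    | zero => simp [Tri]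
    | succ n ih =>
      rw [Tri_succ, add_apply]
      exact J.add_mem ih (S_mem J hl hr a b x hx _)
  unfold W
  rw [smul_apply]
  exact J.smul_mem _ (h _)

/-- limits on the closure -/
theorem tendsto_closure {X : Type*} [NormedAddCommGroup X] [NormedSpace ℂ X]
    (V : ℕ → X →L[ℂ] X) (hV : ∀ n, ‖V n‖ ≤ 1) (s : Set X)
    (hs : ∀ y ∈ s, Tendsto (fun n => V n y) atTop (𝓝 0)) (x : X) (hx : x ∈ closure s) :
    Tendsto (fun n => V n x) atTop (𝓝 0) := by
  rw [Metric.tendsto_atTop]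
  intro ε hε
  obtain ⟨y, hy, hxy⟩ := Metric.mem_closure_iff.1 hx (ε / 2) (by positivity)
  obtain ⟨N, hN⟩ := Metric.tendsto_atTop.1 (hs y hy) (ε / 2) (by positivity)
  refine ⟨N, fun n hn => ?_⟩
  rw [dist_zero_right]
  have h1 := hN n hn
  rw [dist_zero_right] at h1
  have h2 : ‖V n (x - y)‖ < ε / 2 := by
    rw [dist_eq_norm] at hxy
    refine lt_of_le_of_lt ((V n).le_opNorm _) ?_
    calc ‖V n‖ * ‖x - y‖ ≤ 1 * ‖x - y‖ := mul_le_mul_of_nonneg_right (hV n) (norm_nonneg _)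
      _ < ε / 2 := by rw [one_mul]; exact hxy
  have h3 : V n x = V n (x - y) + V n y := by rw [← map_add, sub_add_cancel]
  rw [h3]
  refine lt_of_le_of_lt (norm_add_le _ _) ?_
  linarith

/-- the second factorisation: elements of the closed right ideal generated by `1 - a` -/
theorem factor_RI [Nontrivial A] {φ : A →L[ℂ] ℂ} (hφ : ∀ x y, φ (x * y) = φ x * φ y)
    (hφ1 : φ 1 = 1) {a : A}
    (ha : ‖a‖ ≤ 1) (hφa : φ a = 1) (J : Submodule ℂ A) (hJ : IsClosed (J : Set A))
    (hl : ∀ x ∈ J, ∀ a, a * x ∈ J) (x : A) (hx : x ∈ J) (hxR : x ∈ RI a) :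
    ∃ y ∈ J, ∃ f, φ f = 0 ∧ x = f * y := by
  have hLa : ‖Lm a‖ ≤ 1 := (norm_Lm_le a).trans ha
  have hlim : Tendsto (fun n => W (Lm a) (Lm a) n x) atTop (𝓝 0) := by
    refine tendsto_closure _ (fun n => norm_W_le hLa hLa n) _ ?_ x hxR
    rintro _ ⟨y, rfl⟩
    have h1 := W_mul_L (Commute.refl (Lm a)) hLa hLa
    have h2 := ((ContinuousLinearMap.apply ℂ A y).continuous.tendsto _).comp h1
    rw [map_zero] at h2
    refine h2.congr fun n => ?_
    show (W (Lm a) (Lm a) n * (1 - Lm a)) y = W (Lm a) (Lm a) n (Lm (1 - a) y)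
    rw [mul_apply_eq_comp]
    congr 1
    rw [Lm_apply, sub_apply, one_apply_eq_self, Lm_apply, sub_mul, one_mul]
  have hlim' : Tendsto (fun n => (1 - W (Lm a) (Lm a) n) x) atTop (𝓝 x) := by
    have h1 : Tendsto (fun n => x - W (Lm a) (Lm a) n x) atTop (𝓝 (x - 0)) :=
      tendsto_const_nhds.sub hlim
    rw [sub_zero] at h1
    exact h1.congr fun n => by rw [sub_apply, one_apply_eq_self]
  obtain ⟨y, hy, c, n, hc, hcs, hs⟩ := cohen_inv (fun n => 1 - W (Lm a) (Lm a) n) J hJ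
    (fun n x hx => by
      rw [sub_apply, one_apply_eq_self, W_Lm]
      exact J.sub_mem hx (hl _ hx _)) 1
    (fun n => by
      have : (1 - (1 - W (Lm a) (Lm a) n)) = W (Lm a) (Lm a) n := by abel
      rw [this]
      exact norm_W_le hLa hLa n)
    (T_mul_T (Commute.refl _) hLa hLa) x hx hlim'
  have hfs : Summable fun k => (c k : ℂ) • (1 - W a a (n k)) := by
    refine Summable.of_norm_bounded (hcs.mul_right 2) fun k => ?_
    rw [norm_smul, Complex.norm_real, Real.norm_of_nonneg (hc k)]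
    refine mul_le_mul_of_nonneg_left ?_ (hc k)
    refine (norm_sub_le _ _).trans ?_
    rw [norm_one]
    linarith [norm_W_le ha ha (n k)]
  refine ⟨y, hy, ∑' k, (c k : ℂ) • (1 - W a a (n k)), ?_, ?_⟩
  · rw [φ.map_tsum hfs]
    have : ∀ k, φ ((c k : ℂ) • (1 - W a a (n k))) = 0 := fun k => by
      rw [map_smul, map_sub, hφ1, char_W hφ hφ1 hφa hφa, sub_self, smul_zero]
    simp only [this, tsum_zero]
  · have h1 := (Rm y).hasSum hfs.hasSum
    rw [Rm_apply] at h1
    refine hs.unique (h1.congr_fun fun k => ?_)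
    rw [Rm_apply, sub_apply, one_apply_eq_self, W_Lm, smul_mul_assoc, sub_mul, one_mul]

/-- the factorisation for a pair -/
theorem factor_pair [Nontrivial A] {φ ψ : A →L[ℂ] ℂ} (hφ : ∀ x y, φ (x * y) = φ x * φ y)
    (hφ1 : φ 1 = 1) (hψ : ∀ x y, ψ (x * y) = ψ x * ψ y) (hψ1 : ψ 1 = 1) {a b : A}
    (ha : ‖a‖ ≤ 1) (hφa : φ a = 1) (hb : ‖b‖ ≤ 1) (hψb : ψ b = 1)
    (J : Submodule ℂ A) (hJ : IsClosed (J : Set A))
    (hl : ∀ x ∈ J, ∀ a, a * x ∈ J) (hr : ∀ x ∈ J, ∀ a, x * a ∈ J)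
    (hlim : ∀ x ∈ J, Tendsto (fun n => W (Lm a) (Rm b) n x) atTop (𝓝 0))
    (x : A) (hx : x ∈ J) :
    ∃ y ∈ J, ∃ e, ψ e = 0 ∧ ∃ z ∈ J, ∃ f, φ f = 0 ∧ x = y * e + f * z := by
  have hLa : ‖Lm a‖ ≤ 1 := (norm_Lm_le a).trans ha
  have hRb : ‖Rm b‖ ≤ 1 := (norm_Rm_le b).trans hb
  have hlim' : Tendsto (fun n => (1 - W (Lm a) (Rm b) n) x) atTop (𝓝 x) := by
    have h1 : Tendsto (fun n => x - W (Lm a) (Rm b) n x) atTop (𝓝 (x - 0)) :=
      tendsto_const_nhds.sub (hlim x hx)
    rw [sub_zero] at h1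
    exact h1.congr fun n => by rw [sub_apply, one_apply_eq_self]
  obtain ⟨y, hy, c, n, hc, hcs, hs⟩ := cohen_inv (fun n => 1 - W (Lm a) (Rm b) n) J hJ
    (fun n x hx => by
      rw [sub_apply, one_apply_eq_self]
      exact J.sub_mem hx (W_mem J hl hr a b x hx n)) 1
    (fun n => by
      have : (1 - (1 - W (Lm a) (Rm b) n)) = W (Lm a) (Rm b) n := by abel
      rw [this]
      exact norm_W_le hLa hRb n)
    (T_mul_T (comm_Lm_Rm a b) hLa hRb) x hx hlim'
  have h1n : ‖(1 : A)‖ ≤ 1 := norm_one.le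
  have hes : Summable fun k => (c k : ℂ) • (1 - W 1 b (n k)) := by
    refine Summable.of_norm_bounded (hcs.mul_right 2) fun k => ?_
    rw [norm_smul, Complex.norm_real, Real.norm_of_nonneg (hc k)]
    refine mul_le_mul_of_nonneg_left ?_ (hc k)
    refine (norm_sub_le _ _).trans ?_
    rw [norm_one]
    linarith [norm_W_le h1n hb (n k)]
  set e := ∑' k, (c k : ℂ) • (1 - W 1 b (n k)) with he
  have hψe : ψ e = 0 := by
    rw [he, ψ.map_tsum hes]
    have : ∀ k, ψ ((c k : ℂ) • (1 - W 1 b (n k))) = 0 := fun k => by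
      rw [map_smul, map_sub, hψ1, char_W hψ hψ1 hψ1 hψb, sub_self, smul_zero]
    simp only [this, tsum_zero]
  have hr1 : HasSum (fun k => (c k : ℂ) • (y * W 1 b (n k) - W (Lm a) (Rm b) (n k) y))
      (x - y * e) := by
    have h2 := (Lm y).hasSum hes.hasSum
    rw [← he, Lm_apply] at h2
    refine (hs.sub h2).congr_fun fun k => ?_
    rw [Lm_apply, sub_apply, one_apply_eq_self, mul_smul_comm, ← smul_sub, mul_sub, mul_one]
    congr 1
    abel
  have hmem : x - y * e ∈ RI a := by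
    refine (RI_closed a).mem_of_tendsto hr1 (Filter.Eventually.of_forall fun s => ?_)
    exact (RI a).sum_mem fun k _ => (RI a).smul_mem _ (W_mod_RI _ _ _ _)
  obtain ⟨z, hz, f, hf, hxz⟩ := factor_RI hφ hφ1 ha hφa J hJ hl (x - y * e)
    (J.sub_mem hx (hr _ hy _)) hmem
  exact ⟨y, hy, e, hψe, z, hz, f, hf, by rw [← hxz]; abel⟩

end general

end Q164.W2
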