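import Mathlib
import Pool.Agent.Q164.W2.Pair

/-!
# Idempotence of the intersection of two maximal ideals
-/

set_option autoImplicit false

namespace Q164.W2

open Filter Topology ComplexConjugate

/-- a probability weight of full support on a countable group -/
theorem exists_weight (G : Type) [Group G] [Countable G] :
    ∃ μ : G → ℝ, (∀ g, 0 < μ g) ∧ HasSum μ 1 := by
  obtain ⟨ε, hε, c, hc, -⟩ := NNReal.exists_pos_sum_of_countable (ε := 1) one_ne_zero G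
  have hc' : HasSum (fun g => (ε g : ℝ)) (c : ℝ) := NNReal.hasSum_coe.2 hc
  have hcpos : (0 : ℝ) < c := by
    have h1 : (ε 1 : ℝ) ≤ c := le_hasSum hc' 1 fun j _ => (ε j).2
    have h2 : (0 : ℝ) < ε 1 := by exact_mod_cast hε 1
    linarith
  refine ⟨fun g => (ε g : ℝ) / c, fun g => div_pos (by exact_mod_cast hε g) hcpos, ?_⟩
  have := hc'.div_const (c : ℝ)
  rwa [div_self hcpos.ne'] at this

section
variable {A : Type*} [NormedRing A] [NormedAlgebra ℂ A] [CompleteSpace A] [NormOneClass A]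
variable {G : Type} [Group G] {δ : G → A}

omit [NormedAlgebra ℂ A] [CompleteSpace A] [NormOneClass A] in
theorem delta_pow (hδm : ∀ g h, δ (g * h) = δ g * δ h) (hδ1 : δ 1 = 1) (g : G) (n : ℕ) :
    δ (g ^ n) = δ g ^ n := by
  induction n with
  | zero => simpa using hδ1
  | succ n ih => rw [pow_succ, hδm, ih, pow_succ]

omit [CompleteSpace A] [NormOneClass A] in
theorem char_pow {φ : A →L[ℂ] ℂ} (hφ : ∀ x y, φ (x * y) = φ x * φ y) (hφ1 : φ 1 = 1) (x : A)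
    (n : ℕ) : φ (x ^ n) = φ x ^ n := by
  induction n with
  | zero => simpa using hφ1
  | succ n ih => rw [pow_succ, hφ, ih, pow_succ]

omit [CompleteSpace A] [NormOneClass A] in
theorem char_norm_le (hδ : ∀ g, ‖δ g‖ ≤ 1) (hδm : ∀ g h, δ (g * h) = δ g * δ h) (hδ1 : δ 1 = 1)
    {φ : A →L[ℂ] ℂ} (hφ : ∀ x y, φ (x * y) = φ x * φ y) (hφ1 : φ 1 = 1) (g : G) :
    ‖φ (δ g)‖ ≤ 1 := by
  by_contra hcon
  push Not at hcon
  have h1 := tendsto_pow_atTop_atTop_of_one_lt hcon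
  obtain ⟨n, hn⟩ := (h1.eventually_gt_atTop ‖φ‖).exists
  have h2 : ‖φ (δ (g ^ n))‖ ≤ ‖φ‖ := by
    refine (φ.le_opNorm _).trans ?_
    calc ‖φ‖ * ‖δ (g ^ n)‖ ≤ ‖φ‖ * 1 := mul_le_mul_of_nonneg_left (hδ _) (norm_nonneg _)
      _ = ‖φ‖ := mul_one _
  rw [delta_pow hδm hδ1, char_pow hφ hφ1, norm_pow] at h2
  linarith

omit [CompleteSpace A] [NormOneClass A] in
theorem char_mul_inv (hδm : ∀ g h, δ (g * h) = δ g * δ h) (hδ1 : δ 1 = 1)
    {φ : A →L[ℂ] ℂ} (hφ : ∀ x y, φ (x * y) = φ x * φ y) (hφ1 : φ 1 = 1) (g : G) :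
    φ (δ g⁻¹) * φ (δ g) = 1 := by
  rw [← hφ, ← hδm, inv_mul_cancel, hδ1, hφ1]

omit [CompleteSpace A] [NormOneClass A] in
theorem char_norm (hδ : ∀ g, ‖δ g‖ ≤ 1) (hδm : ∀ g h, δ (g * h) = δ g * δ h) (hδ1 : δ 1 = 1)
    {φ : A →L[ℂ] ℂ} (hφ : ∀ x y, φ (x * y) = φ x * φ y) (hφ1 : φ 1 = 1) (g : G) :
    ‖φ (δ g)‖ = 1 := by
  have h1 := char_norm_le hδ hδm hδ1 hφ hφ1 g
  have h2 := char_norm_le hδ hδm hδ1 hφ hφ1 g⁻¹
  have h3 : ‖φ (δ g⁻¹)‖ * ‖φ (δ g)‖ = 1 := by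
    rw [← norm_mul, char_mul_inv hδm hδ1 hφ hφ1, norm_one]
  nlinarith [norm_nonneg (φ (δ g)), norm_nonneg (φ (δ g⁻¹))]

omit [CompleteSpace A] [NormOneClass A] in
theorem char_inv_conj (hδ : ∀ g, ‖δ g‖ ≤ 1) (hδm : ∀ g h, δ (g * h) = δ g * δ h) (hδ1 : δ 1 = 1)
    {φ : A →L[ℂ] ℂ} (hφ : ∀ x y, φ (x * y) = φ x * φ y) (hφ1 : φ 1 = 1) (g : G) :
    φ (δ g⁻¹) = conj (φ (δ g)) := by
  have h1 := char_mul_inv hδm hδ1 hφ hφ1 g
  have h2 : conj (φ (δ g)) * φ (δ g) = 1 := by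
    rw [mul_comm, Complex.mul_conj, Complex.normSq_eq_norm_sq, char_norm hδ hδm hδ1 hφ hφ1]
    simp
  have h3 : φ (δ g) ≠ 0 := by
    intro h
    rw [h, mul_zero] at h1
    exact zero_ne_one h1
  exact mul_right_cancel₀ h3 (h1.trans h2.symm)

omit [NormOneClass A] in
/-- existence of the twisted weight -/
theorem exists_M (hδ : ∀ g, ‖δ g‖ ≤ 1) (hδm : ∀ g h, δ (g * h) = δ g * δ h) (hδ1 : δ 1 = 1)
    {φ : A →L[ℂ] ℂ} (hφ : ∀ x y, φ (x * y) = φ x * φ y) (hφ1 : φ 1 = 1)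
    {μ : G → ℝ} (hμ0 : ∀ g, 0 < μ g) (hμ1 : HasSum μ 1) :
    ∃ M : A, HasSum (fun v => ((μ v : ℂ) * φ (δ v⁻¹)) • δ v) M ∧ ‖M‖ ≤ 1 ∧ φ M = 1 := by
  have hb : ∀ v, ‖((μ v : ℂ) * φ (δ v⁻¹)) • δ v‖ ≤ μ v := by
    intro v
    rw [norm_smul, norm_mul, Complex.norm_real, Real.norm_of_nonneg (hμ0 v).le,
      char_norm hδ hδm hδ1 hφ hφ1, mul_one]
    calc μ v * ‖δ v‖ ≤ μ v * 1 := mul_le_mul_of_nonneg_left (hδ v) (hμ0 v).le
      _ = μ v := mul_one _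
  have hs : Summable (fun v => ((μ v : ℂ) * φ (δ v⁻¹)) • δ v) :=
    Summable.of_norm_bounded hμ1.summable hb
  refine ⟨_, hs.hasSum, hs.hasSum.norm_le_of_bounded hμ1 hb, ?_⟩
  have h1 := φ.hasSum hs.hasSum
  refine h1.unique ?_
  have h2 : HasSum (fun v => ((μ v : ℝ) : ℂ)) ((1 : ℝ) : ℂ) := Complex.hasSum_ofReal.2 hμ1
  rw [Complex.ofReal_one] at h2
  refine h2.congr_fun fun v => ?_
  rw [map_smul, smul_eq_mul, mul_assoc, char_mul_inv hδm hδ1 hφ hφ1, mul_one]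

omit [CompleteSpace A] [NormOneClass A] in
theorem norm_Tri_apply_le {a b x : A} {C : ℝ} (hC : 0 ≤ C)
    (h : ∀ n : ℕ, ‖sq a b x n‖ ≤ C * Real.sqrt n) (n : ℕ) :
    ‖Tri (Lm a) (Rm b) n x‖ ≤ n * (C * Real.sqrt n) := by
  induction n with
  | zero => simp [Tri]
  | succ n ih =>
    rw [Tri_succ, add_apply, S_op_eq]
    refine (norm_add_le _ _).trans ?_
    have h1 := h (n + 1)
    have h2 : (n : ℝ) * (C * Real.sqrt n) ≤ n * (C * Real.sqrt ((n + 1 : ℕ) : ℝ)) := by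
      have : Real.sqrt n ≤ Real.sqrt ((n + 1 : ℕ) : ℝ) := Real.sqrt_le_sqrt (by push_cast; linarith)
      gcongr
    have h3 : (((n + 1 : ℕ) : ℝ)) * (C * Real.sqrt ((n + 1 : ℕ) : ℝ))
        = n * (C * Real.sqrt ((n + 1 : ℕ) : ℝ)) + C * Real.sqrt ((n + 1 : ℕ) : ℝ) := by
      push_cast; ring
    rw [h3]
    linarith

omit [CompleteSpace A] [NormOneClass A] in
theorem tendsto_W_of_sq {a b x : A} {C : ℝ} (hC : 0 ≤ C)
    (h : ∀ n : ℕ, ‖sq a b x n‖ ≤ C * Real.sqrt n) :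
    Tendsto (fun n => W (Lm a) (Rm b) n x) atTop (𝓝 0) := by
  have h1 : Tendsto (fun n : ℕ => 2 * C * Real.sqrt (1 / ((n : ℝ) + 1))) atTop
      (𝓝 (2 * C * Real.sqrt 0)) :=
    ((Real.continuous_sqrt.tendsto _).comp tendsto_one_div_add_atTop_nhds_zero_nat).const_mul _
  rw [Real.sqrt_zero, mul_zero] at h1
  refine squeeze_zero_norm (fun n => ?_) h1
  unfold W
  rw [smul_apply, norm_smul, Complex.norm_real,
    Real.norm_of_nonneg (by have := tau_pos n; positivity)]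
  have h2 := norm_Tri_apply_le hC h (n + 1)
  have hn1 : (0 : ℝ) < (n : ℝ) + 1 := by positivity
  calc 1 / tau n * ‖Tri (Lm a) (Rm b) (n + 1) x‖
      ≤ 1 / tau n * (((n + 1 : ℕ) : ℝ) * (C * Real.sqrt ((n + 1 : ℕ) : ℝ))) :=
        mul_le_mul_of_nonneg_left h2 (by have := tau_pos n; positivity)
    _ = 2 * C * Real.sqrt ((n : ℝ) + 1) / (n + 2) := by
        unfold tau
        push_cast
        field_simp
    _ ≤ 2 * C * Real.sqrt ((n : ℝ) + 1) / (n + 1) := by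
        gcongr
        linarith
    _ = 2 * C * Real.sqrt (1 / ((n : ℝ) + 1)) := by
        rw [Real.sqrt_div' 1 hn1.le, Real.sqrt_one, mul_div_assoc]
        congr 1
        have h3 : Real.sqrt ((n : ℝ) + 1) * Real.sqrt ((n : ℝ) + 1) = (n : ℝ) + 1 :=
          Real.mul_self_sqrt hn1.le
        have h4 : 0 < Real.sqrt ((n : ℝ) + 1) := Real.sqrt_pos.2 hn1
        rw [div_eq_div_iff hn1.ne' h4.ne', h3, one_mul]

/-- the limit on basic elements -/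
theorem tendsto_W_basic (hδ : ∀ g, ‖δ g‖ ≤ 1) (hδm : ∀ g h, δ (g * h) = δ g * δ h) (hδ1 : δ 1 = 1)
    {φ ψ : A →L[ℂ] ℂ} (hφ : ∀ x y, φ (x * y) = φ x * φ y) (hφ1 : φ 1 = 1)
    (hψ : ∀ x y, ψ (x * y) = ψ x * ψ y) (hψ1 : ψ 1 = 1)
    {μ : G → ℝ} (hμ0 : ∀ g, 0 < μ g) (hμ1 : HasSum μ 1) {a b : A}
    (ha : HasSum (fun v => ((μ v : ℂ) * φ (δ v⁻¹)) • δ v) a)
    (hb : HasSum (fun v => ((μ v : ℂ) * ψ (δ v⁻¹)) • δ v) b) (g : G) :
    Tendsto (fun n => W (Lm a) (Rm b) n (δ g - ψ (δ g) • 1)) atTop (𝓝 0) := by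
  classical
  obtain ⟨m, hm⟩ : ∃ m : G → ℂ, m = fun v => (if v = g then ((1 / μ g : ℝ) : ℂ) else 0)
    - ψ (δ g) * (if v = 1 then ((1 / μ 1 : ℝ) : ℂ) else 0) := ⟨_, rfl⟩
  have hg := hμ0 g
  have h1 := hμ0 1
  have hC : 0 < 1 / μ g + 1 / μ 1 := by positivity
  have hψn : ∀ g, ‖ψ (δ g)‖ = 1 := char_norm hδ hδm hδ1 hψ hψ1
  have hmC : ∀ v, ‖m v‖ ≤ 1 / μ g + 1 / μ 1 := by
    intro v
    rw [hm]
    refine (norm_sub_le _ _).trans ?_
    rw [norm_mul, hψn, one_mul]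
    refine add_le_add ?_ ?_
    · split_ifs
      · rw [Complex.norm_real, Real.norm_of_nonneg (by positivity)]
      · rw [norm_zero]; positivity
    · split_ifs
      · rw [Complex.norm_real, Real.norm_of_nonneg (by positivity)]
      · rw [norm_zero]; positivity
  have hz : HasSum (fun v => ((μ v : ℂ) * ψ (δ v⁻¹)) * conj (m v)) 0 := by
    have e1 : HasSum (fun v => if v = g then ψ (δ g⁻¹) else 0) (ψ (δ g⁻¹)) := hasSum_ite_eq g _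
    have e2 : HasSum (fun v : G => if v = 1 then conj (ψ (δ g)) else 0) (conj (ψ (δ g))) :=
      hasSum_ite_eq (1 : G) _
    have e3 := e1.sub e2
    rw [char_inv_conj hδ hδm hδ1 hψ hψ1, sub_self] at e3
    refine e3.congr_fun fun v => ?_
    rw [hm]
    simp only [map_sub, map_mul, mul_sub]
    congr 1
    · by_cases hv : v = g
      · subst hv
        simp only [if_true, Complex.conj_ofReal]
        rw [mul_assoc, mul_comm (ψ (δ v⁻¹)), ← mul_assoc, ← Complex.ofReal_mul,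
          mul_one_div_cancel hg.ne', char_inv_conj hδ hδm hδ1 hψ hψ1]
        simp
      · simp [hv]
    · by_cases hv : v = 1
      · subst hv
        simp only [if_true, Complex.conj_ofReal, inv_one, hδ1, hψ1, mul_one]
        rw [mul_comm (conj _), ← mul_assoc, ← Complex.ofReal_mul, mul_one_div_cancel h1.ne']
        simp
      · simp [hv]
  have hx : HasSum (fun v => ((μ v : ℂ) * m v) • δ v) (δ g - ψ (δ g) • 1) := by
    have e1 : HasSum (fun v => if v = g then δ g else 0) (δ g) := hasSum_ite_eq g _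
    have e2 : HasSum (fun v : G => if v = 1 then ψ (δ g) • (1 : A) else 0) (ψ (δ g) • (1 : A)) :=
      hasSum_ite_eq (1 : G) _
    refine (e1.sub e2).congr_fun fun v => ?_
    rw [hm]
    simp only [mul_sub, sub_smul]
    congr 1
    · by_cases hv : v = g
      · subst hv
        simp only [if_true]
        rw [← Complex.ofReal_mul, mul_one_div_cancel hg.ne']
        simp
      · simp [hv]
    · by_cases hv : v = 1
      · subst hv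
        simp only [if_true]
        rw [mul_left_comm, ← Complex.ofReal_mul, mul_one_div_cancel h1.ne', hδ1]
        simp
      · simp [hv]
  refine tendsto_W_of_sq hC.le fun n => ?_
  refine norm_sq_le hδ hδm hδ1 (fun g => (hμ0 g).le) hμ1 (α := fun v => φ (δ v⁻¹))
    (β := fun v => ψ (δ v⁻¹)) (fun g => char_norm hδ hδm hδ1 hφ hφ1 _)
    (fun g => hψn _) ?_ ?_ hC hmC hz ha hb hx n
  · intro g h
    show φ (δ (g * h)⁻¹) = φ (δ g⁻¹) * φ (δ h⁻¹)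
    rw [mul_inv_rev, hδm, hφ, mul_comm]
  · show φ (δ 1⁻¹) = 1
    rw [inv_one, hδ1, hφ1]

/-- the limit on the kernel of `ψ` -/
theorem tendsto_W_ker (hδ : ∀ g, ‖δ g‖ ≤ 1) (hδm : ∀ g h, δ (g * h) = δ g * δ h) (hδ1 : δ 1 = 1)
    (hrep : ∀ x : A, ∃ c : G → ℂ, Summable (fun g => ‖c g‖) ∧ HasSum (fun g => c g • δ g) x)
    {φ ψ : A →L[ℂ] ℂ} (hφ : ∀ x y, φ (x * y) = φ x * φ y) (hφ1 : φ 1 = 1)
    (hψ : ∀ x y, ψ (x * y) = ψ x * ψ y) (hψ1 : ψ 1 = 1)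
    {μ : G → ℝ} (hμ0 : ∀ g, 0 < μ g) (hμ1 : HasSum μ 1) {a b : A}
    (ha : HasSum (fun v => ((μ v : ℂ) * φ (δ v⁻¹)) • δ v) a)
    (hb : HasSum (fun v => ((μ v : ℂ) * ψ (δ v⁻¹)) • δ v) b)
    (ha1 : ‖a‖ ≤ 1) (hb1 : ‖b‖ ≤ 1) [Nontrivial A] (x : A) (hx : ψ x = 0) :
    Tendsto (fun n => W (Lm a) (Rm b) n x) atTop (𝓝 0) := by
  have hLa : ‖Lm a‖ ≤ 1 := (norm_Lm_le a).trans ha1
  have hRb : ‖Rm b‖ ≤ 1 := (norm_Rm_le b).trans hb1
  obtain ⟨c, hc, hcx⟩ := hrep x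
  have hψn : ∀ g, ‖ψ (δ g)‖ = 1 := char_norm hδ hδm hδ1 hψ hψ1
  have h1 : HasSum (fun g => c g • (δ g - ψ (δ g) • (1 : A))) x := by
    have h2 := ψ.hasSum hcx
    rw [hx] at h2
    have h3 := h2.smul_const (1 : A)
    rw [zero_smul] at h3
    have h4 := hcx.sub h3
    rw [sub_zero] at h4
    refine h4.congr_fun fun g => ?_
    rw [map_smul, smul_eq_mul, smul_sub, smul_smul]
  have h5 : ∀ n, HasSum (fun g => c g • W (Lm a) (Rm b) n (δ g - ψ (δ g) • (1 : A)))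
      (W (Lm a) (Rm b) n x) := by
    intro n
    have := (W (Lm a) (Rm b) n).hasSum h1
    refine this.congr_fun fun g => ?_
    rw [map_smul]
  have h6 : Tendsto (fun n => ∑' g, c g • W (Lm a) (Rm b) n (δ g - ψ (δ g) • (1 : A))) atTop
      (𝓝 (∑' g : G, (0 : A))) := by
    refine tendsto_tsum_of_dominated_convergence (bound := fun g => ‖c g‖ * 2)
      (hc.mul_right 2) (fun g => ?_) (Filter.Eventually.of_forall fun n g => ?_)
    · have := (tendsto_W_basic hδ hδm hδ1 hφ hφ1 hψ hψ1 hμ0 hμ1 ha hb g).const_smul (c g)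
      rwa [smul_zero] at this
    · rw [norm_smul]
      refine mul_le_mul_of_nonneg_left ?_ (norm_nonneg _)
      refine ((W (Lm a) (Rm b) n).le_opNorm _).trans ?_
      have h7 : ‖δ g - ψ (δ g) • (1 : A)‖ ≤ 2 := by
        refine (norm_sub_le _ _).trans ?_
        rw [norm_smul, hψn, norm_one]
        linarith [hδ g]
      calc ‖W (Lm a) (Rm b) n‖ * ‖δ g - ψ (δ g) • (1 : A)‖
          ≤ 1 * 2 := mul_le_mul (norm_W_le hLa hRb n) h7 (norm_nonneg _) zero_le_one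
        _ = 2 := one_mul _
  rw [tsum_zero] at h6
  exact h6.congr fun n => (h5 n).tsum_eq

/-- the main theorem: `J = ker φ ∩ ker ψ` is spanned by the products of its elements -/
theorem idem (hδ : ∀ g, ‖δ g‖ ≤ 1) (hδm : ∀ g h, δ (g * h) = δ g * δ h) (hδ1 : δ 1 = 1)
    (hrep : ∀ x : A, ∃ c : G → ℂ, Summable (fun g => ‖c g‖) ∧ HasSum (fun g => c g • δ g) x)
    [Countable G] [Nontrivial A]
    {φ ψ : A →L[ℂ] ℂ} (hφ : ∀ x y, φ (x * y) = φ x * φ y) (hφ1 : φ 1 = 1)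
    (hψ : ∀ x y, ψ (x * y) = ψ x * ψ y) (hψ1 : ψ 1 = 1) (hne : φ ≠ ψ)
    (x : A) (hxφ : φ x = 0) (hxψ : ψ x = 0) :
    x ∈ Submodule.span ℂ {h : A | ∃ a b : A, φ a = 0 ∧ ψ a = 0 ∧ φ b = 0 ∧ ψ b = 0 ∧ h = a * b} := by
  obtain ⟨μ, hμ0, hμ1⟩ := exists_weight G
  obtain ⟨J, hJ⟩ : ∃ J : Submodule ℂ A, J = LinearMap.ker φ.toLinearMap ⊓ LinearMap.ker ψ.toLinearMap :=
    ⟨_, rfl⟩
  have hmem : ∀ z, z ∈ J ↔ φ z = 0 ∧ ψ z = 0 := by
    intro z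
    rw [hJ, Submodule.mem_inf, LinearMap.mem_ker, LinearMap.mem_ker]
    rfl
  have hJc : IsClosed (J : Set A) := by
    have : (J : Set A) = φ ⁻¹' {0} ∩ ψ ⁻¹' {0} := by
      ext z
      simp [hmem]
    rw [this]
    exact (isClosed_singleton.preimage φ.continuous).inter
      (isClosed_singleton.preimage ψ.continuous)
  have hl : ∀ z ∈ J, ∀ a, a * z ∈ J := by
    intro z hz a
    rw [hmem] at hz ⊢
    rw [hφ, hψ, hz.1, hz.2, mul_zero, mul_zero]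
    exact ⟨rfl, rfl⟩
  have hr : ∀ z ∈ J, ∀ a, z * a ∈ J := by
    intro z hz a
    rw [hmem] at hz ⊢
    rw [hφ, hψ, hz.1, hz.2, zero_mul, zero_mul]
    exact ⟨rfl, rfl⟩
  -- the factorisation for each pair
  have key : ∀ (χ θ : A →L[ℂ] ℂ), (∀ x y, χ (x * y) = χ x * χ y) → χ 1 = 1 →
      (∀ x y, θ (x * y) = θ x * θ y) → θ 1 = 1 → (∀ z ∈ J, θ z = 0) →
      ∀ x ∈ J, ∃ y ∈ J, ∃ e, θ e = 0 ∧ ∃ z ∈ J, ∃ f, χ f = 0 ∧ x = y * e + f * z := by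
    intro χ θ hχ hχ1 hθ hθ1 hJθ x hx
    obtain ⟨a, ha, ha1, hχa⟩ := exists_M hδ hδm hδ1 hχ hχ1 hμ0 hμ1
    obtain ⟨b, hb, hb1, hθb⟩ := exists_M hδ hδm hδ1 hθ hθ1 hμ0 hμ1
    exact factor_pair hχ hχ1 hθ hθ1 ha1 hχa hb1 hθb J hJc hl hr (fun z hz =>
      tendsto_W_ker hδ hδm hδ1 hrep hχ hχ1 hθ hθ1 hμ0 hμ1 ha hb ha1 hb1 z (hJθ z hz)) x hx
  -- the two idempotent-like elements
  obtain ⟨d, hd⟩ : ∃ d, φ d ≠ ψ d := by
    by_contra hcon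
    push Not at hcon
    exact hne (ContinuousLinearMap.ext hcon)
  have hd' : φ d - ψ d ≠ 0 := sub_ne_zero.2 hd
  obtain ⟨e0, he0⟩ : ∃ e0 : A, e0 = (φ d - ψ d)⁻¹ • (d - ψ d • 1) := ⟨_, rfl⟩
  have hφe0 : φ e0 = 1 := by
    rw [he0, map_smul, map_sub, map_smul, hφ1, smul_eq_mul, smul_eq_mul, mul_one,
      inv_mul_cancel₀ hd']
  have hψe0 : ψ e0 = 0 := by
    rw [he0, map_smul, map_sub, map_smul, hψ1, smul_eq_mul, smul_eq_mul, mul_one, sub_self,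
      mul_zero]
  obtain ⟨e1, he1⟩ : ∃ e1 : A, e1 = 1 - e0 := ⟨_, rfl⟩
  have hφe1 : φ e1 = 0 := by rw [he1, map_sub, hφ1, hφe0, sub_self]
  have hψe1 : ψ e1 = 1 := by rw [he1, map_sub, hψ1, hψe0, sub_zero]
  have hx : x ∈ J := (hmem x).2 ⟨hxφ, hxψ⟩
  obtain ⟨V, hV⟩ : ∃ V : Submodule ℂ A, V = Submodule.span ℂ
    {h : A | ∃ a b : A, φ a = 0 ∧ ψ a = 0 ∧ φ b = 0 ∧ ψ b = 0 ∧ h = a * b} := ⟨_, rfl⟩
  rw [← hV]
  have hVm : ∀ a ∈ J, ∀ b ∈ J, a * b ∈ V := by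
    intro a ha b hb
    rw [hV]
    exact Submodule.subset_span ⟨a, b, ((hmem a).1 ha).1, ((hmem a).1 ha).2,
      ((hmem b).1 hb).1, ((hmem b).1 hb).2, rfl⟩
  -- the pieces
  have piece : ∀ (χ θ : A →L[ℂ] ℂ) (u v : A), (∀ x y, χ (x * y) = χ x * χ y) → χ 1 = 1 →
      (∀ x y, θ (x * y) = θ x * θ y) → θ 1 = 1 → (∀ z ∈ J, θ z = 0) →
      (∀ f, χ f = 0 → u * f ∈ J) → (∀ e, θ e = 0 → e * v ∈ J) → u * x * v ∈ V := by
    intro χ θ u v hχ hχ1 hθ hθ1 hJθ hu hv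
    obtain ⟨y, hy, e, he, z, hz, f, hf, hxe⟩ := key χ θ hχ hχ1 hθ hθ1 hJθ x hx
    have e3 : u * x * v = (u * y) * (e * v) + (u * f) * (z * v) := by
      rw [hxe]; noncomm_ring
    rw [e3]
    exact V.add_mem (hVm _ (hl _ hy _) _ (hv e he)) (hVm _ (hu f hf) _ (hr _ hz _))
  have hJφ : ∀ z ∈ J, φ z = 0 := fun z hz => ((hmem z).1 hz).1
  have hJψ : ∀ z ∈ J, ψ z = 0 := fun z hz => ((hmem z).1 hz).2
  have u0 : ∀ f, φ f = 0 → e0 * f ∈ J := fun f hf => by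
    rw [hmem, hφ, hψ, hf, hψe0, mul_zero, zero_mul]; exact ⟨rfl, rfl⟩
  have u1 : ∀ f, ψ f = 0 → e1 * f ∈ J := fun f hf => by
    rw [hmem, hφ, hψ, hf, hφe1, mul_zero, zero_mul]; exact ⟨rfl, rfl⟩
  have v0 : ∀ f, φ f = 0 → f * e0 ∈ J := fun f hf => by
    rw [hmem, hφ, hψ, hf, hψe0, mul_zero, zero_mul]; exact ⟨rfl, rfl⟩
  have v1 : ∀ f, ψ f = 0 → f * e1 ∈ J := fun f hf => by
    rw [hmem, hφ, hψ, hf, hφe1, mul_zero, zero_mul]; exact ⟨rfl, rfl⟩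
  have p00 := piece φ φ e0 e0 hφ hφ1 hφ hφ1 hJφ u0 v0
  have p01 := piece φ ψ e0 e1 hφ hφ1 hψ hψ1 hJψ u0 v1
  have p10 := piece ψ φ e1 e0 hψ hψ1 hφ hφ1 hJφ u1 v0
  have p11 := piece ψ ψ e1 e1 hψ hψ1 hψ hψ1 hJψ u1 v1
  have hxsum : x = e0 * x * e0 + e0 * x * e1 + (e1 * x * e0 + e1 * x * e1) := by
    rw [he1]; noncomm_ring
  rw [hxsum]
  exact V.add_mem (V.add_mem p00 p01) (V.add_mem p10 p11)

end

end Q164.W2
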