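import Mathlib
import Pool.Agent.Q164.W2.Conc

/-!
# Closed ideals of codimension two
-/

set_option autoImplicit false

namespace Q164.W2

open Filter Topology ComplexConjugate

section
variable {A : Type*} [NormedRing A] [NormedAlgebra ℂ A] [CompleteSpace A] [NormOneClass A]
variable {G : Type} [Group G] {δ : G → A}

omit [CompleteSpace A] [NormOneClass A] in
/-- a closed ideal of codimension two is the intersection of the kernels of two characters -/
theorem codim_two (hδ : ∀ g, ‖δ g‖ ≤ 1) (hδm : ∀ g h, δ (g * h) = δ g * δ h) (hδ1 : δ 1 = 1)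
    (hrep : ∀ x : A, ∃ c : G → ℂ, Summable (fun g => ‖c g‖) ∧ HasSum (fun g => c g • δ g) x)
    (I : Submodule ℂ A) (hI : IsClosed (I : Set A)) (hl : ∀ x ∈ I, ∀ a, a * x ∈ I)
    (hr : ∀ x ∈ I, ∀ a, x * a ∈ I) (h2 : Module.finrank ℂ (A ⧸ I) = 2) :
    ∃ φ ψ : A →L[ℂ] ℂ, (∀ x y, φ (x * y) = φ x * φ y) ∧ φ 1 = 1 ∧
      (∀ x y, ψ (x * y) = ψ x * ψ y) ∧ ψ 1 = 1 ∧ φ ≠ ψ ∧ ∀ x, x ∈ I ↔ φ x = 0 ∧ ψ x = 0 := by
  have hIc : IsClosed (I : Set A) := hI
  have hfd : FiniteDimensional ℂ (A ⧸ I) := by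
    refine Module.finite_of_finrank_pos ?_
    rw [h2]; norm_num
  let q : A →L[ℂ] (A ⧸ I) := I.mkQL
  have hq0 : ∀ x, q x = 0 ↔ x ∈ I := fun x => Submodule.Quotient.mk_eq_zero I
  have hqs : Function.Surjective q := Submodule.Quotient.mk_surjective I
  have hq1 : q 1 ≠ 0 := by
    intro h
    rw [hq0] at h
    have : I = ⊤ := by
      rw [eq_top_iff]
      intro x _
      have := hl 1 h x
      rwa [mul_one] at this
    have h3 : Module.finrank ℂ (A ⧸ I) = 0 := by
      have : Subsingleton (A ⧸ I) := by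
        exact Submodule.Quotient.subsingleton_iff.2 this
      exact Module.finrank_zero_of_subsingleton
    omega
  -- an element of the group
  obtain ⟨g, hg⟩ : ∃ g, q (δ g) ∉ Submodule.span ℂ {q 1} := by
    by_contra hcon
    push Not at hcon
    have hcl : IsClosed ((Submodule.span ℂ {q 1} : Submodule ℂ (A ⧸ I)) : Set (A ⧸ I)) :=
      Submodule.closed_of_finiteDimensional _
    have htop : (⊤ : Submodule ℂ (A ⧸ I)) ≤ Submodule.span ℂ {q 1} := by
      intro z _
      obtain ⟨x, rfl⟩ := hqs z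
      obtain ⟨c, -, hcx⟩ := hrep x
      have h3 := q.hasSum hcx
      refine hcl.mem_of_tendsto h3 (Filter.Eventually.of_forall fun s => ?_)
      refine Submodule.sum_mem _ fun v _ => ?_
      rw [map_smul]
      exact Submodule.smul_mem _ _ (hcon v)
    have h4 : Module.finrank ℂ (Submodule.span ℂ {q 1}) ≤ 1 := by
      refine (finrank_span_le_card ({q 1} : Set (A ⧸ I))).trans ?_
      simp
    rw [top_le_iff.1 htop, finrank_top, h2] at h4
    omega
  obtain ⟨d, hd⟩ : ∃ d, d = δ g := ⟨_, rfl⟩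
  rw [← hd] at hg
  have hli : LinearIndependent ℂ ![q 1, q d] := by
    rw [LinearIndependent.pair_iff' hq1]
    intro a ha
    exact hg (ha ▸ Submodule.smul_mem _ _ (Submodule.mem_span_singleton_self _))
  let b := basisOfLinearIndependentOfCardEqFinrank hli (by rw [h2]; simp)
  have hb0 : b 0 = q 1 := by
    simp [b]
  have hb1 : b 1 = q d := by
    simp [b]
  let s : A →L[ℂ] ℂ := (LinearMap.toContinuousLinearMap (b.coord 0)).comp q
  let t : A →L[ℂ] ℂ := (LinearMap.toContinuousLinearMap (b.coord 1)).comp q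
  have hs : ∀ x, s x = b.coord 0 (q x) := fun x => rfl
  have ht : ∀ x, t x = b.coord 1 (q x) := fun x => rfl
  have hs1 : s 1 = 1 := by rw [hs, ← hb0]; simp
  have ht1 : t 1 = 0 := by rw [ht, ← hb0]; simp
  have hsd : s d = 0 := by rw [hs, ← hb1]; simp
  have htd : t d = 1 := by rw [ht, ← hb1]; simp
  have hmem : ∀ x, x ∈ I ↔ s x = 0 ∧ t x = 0 := by
    intro x
    rw [← hq0]
    constructor
    · intro h
      rw [hs, ht, h]; simp
    · rintro ⟨h, h'⟩
      have h3 := b.sum_repr (q x)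
      rw [Fin.sum_univ_two] at h3
      rw [← h3]
      have e0 : b.repr (q x) 0 = 0 := h
      have e1 : b.repr (q x) 1 = 0 := h'
      rw [e0, e1]; simp
  have hdec : ∀ x, x - (s x • (1 : A) + t x • d) ∈ I := by
    intro x
    rw [hmem]
    constructor
    · rw [map_sub, map_add, map_smul, map_smul, hs1, hsd]; simp
    · rw [map_sub, map_add, map_smul, map_smul, ht1, htd]; simp
  have hprod : ∀ x y, x * y - (s x • (1 : A) + t x • d) * (s y • (1 : A) + t y • d) ∈ I := by
    intro x y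
    have e : x * y - (s x • (1 : A) + t x • d) * (s y • (1 : A) + t y • d)
        = (x - (s x • (1 : A) + t x • d)) * y
          + (s x • (1 : A) + t x • d) * (y - (s y • (1 : A) + t y • d)) := by
      noncomm_ring
    rw [e]
    exact I.add_mem (hr _ (hdec x) _) (hl _ (hdec y) _)
  have hexp : ∀ x y, (s x • (1 : A) + t x • d) * (s y • (1 : A) + t y • d)
      = (s x * s y) • (1 : A) + (s x * t y + t x * s y) • d + (t x * t y) • (d * d) := by
    intro x y
    simp only [mul_add, add_mul, smul_mul_smul_comm, one_mul, mul_one, add_smul]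
    abel
  have hsm : ∀ x y, s (x * y) = s x * s y + s (d * d) * (t x * t y) := by
    intro x y
    have h3 := ((hmem _).1 (hprod x y)).1
    rw [map_sub, sub_eq_zero, hexp, map_add, map_add, map_smul, map_smul, map_smul, hs1, hsd] at h3
    rw [h3]
    simp only [smul_eq_mul]
    ring
  have htm : ∀ x y, t (x * y) = s x * t y + t x * s y + t (d * d) * (t x * t y) := by
    intro x y
    have h3 := ((hmem _).1 (hprod x y)).2
    rw [map_sub, sub_eq_zero, hexp, map_add, map_add, map_smul, map_smul, map_smul, ht1, htd] at h3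
    rw [h3]
    simp only [smul_eq_mul]
    ring
  obtain ⟨σ, hσ⟩ : ∃ σ, σ = s (d * d) := ⟨_, rfl⟩
  obtain ⟨τ, hτ⟩ : ∃ τ, τ = t (d * d) := ⟨_, rfl⟩
  rw [← hσ] at hsm
  rw [← hτ] at htm
  -- characters from the roots
  have hchar : ∀ l : ℂ, l ^ 2 = σ + τ * l → ∀ x y, (s + l • t) (x * y)
      = (s + l • t) x * (s + l • t) y := by
    intro l hl x y
    simp only [add_apply, smul_apply, smul_eq_mul]
    rw [hsm, htm]
    linear_combination (-(t x * t y)) * hl
  have hchar1 : ∀ l : ℂ, (s + l • t) 1 = 1 := by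
    intro l
    simp only [add_apply, smul_apply, smul_eq_mul, hs1, ht1, mul_zero, add_zero]
  obtain ⟨r, hr2⟩ := IsAlgClosed.exists_pow_nat_eq (τ ^ 2 + 4 * σ) (n := 2) (by norm_num)
  have hroot1 : ((τ + r) / 2) ^ 2 = σ + τ * ((τ + r) / 2) := by linear_combination hr2 / 4
  have hroot2 : ((τ - r) / 2) ^ 2 = σ + τ * ((τ - r) / 2) := by linear_combination hr2 / 4
  have hr0 : r ≠ 0 := by
    intro hr0
    rw [hr0] at hroot1 hr2
    obtain ⟨l, hl⟩ : ∃ l, l = (τ + 0) / 2 := ⟨_, rfl⟩
    rw [← hl] at hroot1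
    have hτl : τ = 2 * l := by rw [hl]; ring
    have hχ := hchar l hroot1
    have hχ1 := hchar1 l
    have hχd : (s + l • t) d = l := by
      simp only [add_apply, smul_apply, smul_eq_mul, hsd, htd, mul_one, zero_add]
    have hder : ∀ x y, t (x * y) = (s + l • t) x * t y + t x * (s + l • t) y := by
      intro x y
      simp only [add_apply, smul_apply, smul_eq_mul]
      rw [htm, hτl]; ring
    have hnl : ‖l‖ = 1 := by
      rw [← hχd, hd]
      exact char_norm hδ hδm hδ1 hχ hχ1 g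
    have hpow : ∀ n : ℕ, t (d ^ (n + 1)) = (n + 1) * l ^ n := by
      intro n
      induction n with
      | zero => simp [htd]
      | succ n ih =>
        rw [pow_succ, hder, ih, hχd, htd, char_pow hχ hχ1, hχd, pow_succ l n]
        push_cast
        ring
    obtain ⟨n, hn⟩ := exists_nat_gt ‖t‖
    have h3 : ‖t (d ^ (n + 1))‖ ≤ ‖t‖ := by
      rw [hd, ← delta_pow hδm hδ1]
      refine (t.le_opNorm _).trans ?_
      calc ‖t‖ * ‖δ (g ^ (n + 1))‖ ≤ ‖t‖ * 1 := mul_le_mul_of_nonneg_left (hδ _) (norm_nonneg _)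
        _ = ‖t‖ := mul_one _
    rw [hpow, norm_mul, norm_pow, hnl, one_pow, mul_one] at h3
    have h4 : ‖((n : ℂ) + 1)‖ = (n : ℝ) + 1 := by
      have : ((n : ℂ) + 1) = (((n : ℝ) + 1 : ℝ) : ℂ) := by push_cast; rfl
      rw [this, Complex.norm_real, Real.norm_of_nonneg (by positivity)]
    rw [h4] at h3
    linarith
  refine ⟨s + ((τ + r) / 2) • t, s + ((τ - r) / 2) • t, hchar _ hroot1, hchar1 _,
    hchar _ hroot2, hchar1 _, ?_, ?_⟩
  · intro h
    have h3 := congrArg (fun f : A →L[ℂ] ℂ => f d) h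
    simp only [add_apply, smul_apply, smul_eq_mul, hsd, htd, mul_one, zero_add] at h3
    apply hr0
    linear_combination h3
  · intro x
    rw [hmem]
    simp only [add_apply, smul_apply, smul_eq_mul]
    constructor
    · rintro ⟨h, h'⟩
      rw [h, h']; simp
    · rintro ⟨h, h'⟩
      have h3 : t x = 0 := by
        have : r * t x = 0 := by linear_combination h - h'
        exact (mul_eq_zero.1 this).resolve_left hr0
      rw [h3, mul_zero, add_zero] at h
      exact ⟨h, h3⟩

/-- Closed ideals of codimension two are spanned by the products of their elements. -/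
theorem idem_codim_two (hδ : ∀ g, ‖δ g‖ ≤ 1) (hδm : ∀ g h, δ (g * h) = δ g * δ h) (hδ1 : δ 1 = 1)
    (hrep : ∀ x : A, ∃ c : G → ℂ, Summable (fun g => ‖c g‖) ∧ HasSum (fun g => c g • δ g) x)
    [Countable G] [Nontrivial A]
    (I : Submodule ℂ A) (hI : IsClosed (I : Set A)) (hl : ∀ x ∈ I, ∀ a, a * x ∈ I)
    (hr : ∀ x ∈ I, ∀ a, x * a ∈ I) (h2 : Module.finrank ℂ (A ⧸ I) = 2) :
    Submodule.span ℂ {h : A | ∃ a ∈ I, ∃ b ∈ I, h = a * b} = I := by
  obtain ⟨φ, ψ, hφ, hφ1, hψ, hψ1, hne, hmem⟩ := codim_two hδ hδm hδ1 hrep I hI hl hr h2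
  refine le_antisymm ?_ ?_
  · rw [Submodule.span_le]
    rintro _ ⟨a, ha, b, hb, rfl⟩
    exact hr _ ha _
  · intro x hx
    have h3 := idem hδ hδm hδ1 hrep hφ hφ1 hψ hψ1 hne x ((hmem x).1 hx).1 ((hmem x).1 hx).2
    refine Submodule.span_mono ?_ h3
    rintro _ ⟨a, b, ha, ha', hb, hb', rfl⟩
    exact ⟨a, (hmem a).2 ⟨ha, ha'⟩, b, (hmem b).2 ⟨hb, hb'⟩, rfl⟩

end

end Q164.W2
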